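import Mathlib

/-! Subdirectly irreducible rings with a commutative, `x^q = x` quotient by an ideal of square zero
(proofs by helper365 and helper368). -/

namespace Pool.Agent.Helper446_ENG

/-- `x^(n+1)` in a nonunital ring -/
def pw {R : Type*} [NonUnitalRing R] (x : R) : ℕ → R
  | 0 => x
  | n + 1 => pw x n * x

namespace J5291

section

variable {S : Type} [NonUnitalRing S] {M : AddSubgroup S}

/-- left multiplication -/
def Lm (hl : ∀ s m : S, m ∈ M → s * m ∈ M) (s : S) : AddMonoid.End M where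
  toFun m := ⟨s * m, hl s m m.2⟩
  map_zero' := Subtype.ext (mul_zero s)
  map_add' x y := Subtype.ext (mul_add s x y)

/-- right multiplication -/
def Rm (hr : ∀ s m : S, m ∈ M → m * s ∈ M) (s : S) : AddMonoid.End M where
  toFun m := ⟨m * s, hr s m m.2⟩
  map_zero' := Subtype.ext (zero_mul s)
  map_add' x y := Subtype.ext (add_mul (x : S) y s)

theorem Lm_pow (hl : ∀ s m : S, m ∈ M → s * m ∈ M) (s : S) (n : ℕ) :
    (Lm hl s) ^ (n + 1) = Lm hl (pw s n) := by
  induction n with
  | zero => rw [zero_add, pow_one]; rfl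
  | succ n ih =>
    rw [pow_succ, ih]
    ext m
    show pw s n * (s * (m : S)) = (pw s n * s) * m
    rw [mul_assoc]

theorem Rm_pow (hr : ∀ s m : S, m ∈ M → m * s ∈ M) (s : S) (n : ℕ) :
    (Rm hr s) ^ (n + 1) = Rm hr (pw s n) := by
  induction n with
  | zero => rw [zero_add, pow_one]; rfl
  | succ n ih =>
    rw [pow_succ', ih]
    ext m
    show ((m : S) * pw s n) * s = m * (pw s n * s)
    rw [mul_assoc]

end

/-- the number of solutions of `x ^ q = x` in a domain -/
theorem card_le_of_pow {E : Type} [CommRing E] [IsDomain E] (q : ℕ) (hq : 2 ≤ q)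
    (h : ∀ e : E, e ^ q = e) : Finite E ∧ Nat.card E ≤ q := by
  classical
  have hne : (Polynomial.X ^ q - Polynomial.X : Polynomial E) ≠ 0 := by
    intro h0
    have h1 := congrArg (fun P : Polynomial E => P.coeff q) h0
    simp only [Polynomial.coeff_sub, Polynomial.coeff_X_pow_self, Polynomial.coeff_zero] at h1
    rw [Polynomial.coeff_X_of_ne_one (by omega), sub_zero] at h1
    exact one_ne_zero h1
  have hdeg : (Polynomial.X ^ q - Polynomial.X : Polynomial E).natDegree ≤ q := by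
    refine (Polynomial.natDegree_sub_le _ _).trans ?_
    rw [Polynomial.natDegree_X_pow, Polynomial.natDegree_X]
    exact max_le le_rfl (by omega)
  have hmem : ∀ e : E, e ∈ (Polynomial.X ^ q - Polynomial.X : Polynomial E).roots.toFinset := by
    intro e
    rw [Multiset.mem_toFinset, Polynomial.mem_roots hne, Polynomial.IsRoot.def]
    simp [h e]
  have hfin : Finite E := Finite.of_finite_univ
    ((Finset.finite_toSet _).subset fun e _ => hmem e)
  refine ⟨hfin, ?_⟩
  have h2 : (Set.univ : Set E).ncard ≤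
      ((Polynomial.X ^ q - Polynomial.X : Polynomial E).roots.toFinset : Set E).ncard :=
    Set.ncard_le_ncard (fun e _ => hmem e) (Finset.finite_toSet _)
  rw [Set.ncard_univ, Set.ncard_coe_finset] at h2
  exact h2.trans ((Multiset.toFinset_card_le _).trans
    ((Polynomial.card_roots' _).trans hdeg))

end J5291

theorem lemmaM {S : Type} [NonUnitalRing S] (p f : ℕ) (hp : p.Prime) (hf : 1 ≤ f)
    (hchar : ∀ x : S, p • x = 0) (M : AddSubgroup S)
    (hl : ∀ s m : S, m ∈ M → s * m ∈ M) (hr : ∀ s m : S, m ∈ M → m * s ∈ M)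
    (hcl : ∀ s t m : S, m ∈ M → s * t * m = t * s * m)
    (hcr : ∀ s t m : S, m ∈ M → m * s * t = m * t * s)
    (hpl : ∀ s m : S, m ∈ M → pw s (p ^ f - 1) * m = s * m)
    (hpr : ∀ s m : S, m ∈ M → m * pw s (p ^ f - 1) = m * s)
    (c : S) (hc : c ≠ 0) (hcM : c ∈ M)
    (hmin : ∀ K : AddSubgroup S, K ≤ M → (∀ s m : S, m ∈ K → s * m ∈ K) →
      (∀ s m : S, m ∈ K → m * s ∈ K) → K ≠ ⊥ → c ∈ K) :
    Finite M ∧ Nat.card M ≤ p ^ f ∧
      ∃ (E : Type) (_ : AddCommGroup E) (φ : S →+ E × E), Finite E ∧ Nat.card E ≤ p ^ f ∧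
        ∀ s : S, φ s = 0 → ∀ m ∈ M, s * m = 0 ∧ m * s = 0 := by
  have hq2 : 2 ≤ p ^ f := by
    calc 2 ≤ p := hp.two_le
      _ = p ^ 1 := (pow_one p).symm
      _ ≤ p ^ f := Nat.pow_le_pow_right hp.pos hf
  have hq0 : p ^ f ≠ 0 := by omega
  have hq1 : p ^ f - 1 + 1 = p ^ f := by omega
  -- generators
  have hcomm : ∀ x ∈ Set.range (J5291.Lm hl) ∪ Set.range (J5291.Rm hr),
      ∀ y ∈ Set.range (J5291.Lm hl) ∪ Set.range (J5291.Rm hr), x * y = y * x := by
    rintro x (⟨s, rfl⟩ | ⟨s, rfl⟩) y (⟨t, rfl⟩ | ⟨t, rfl⟩)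
    · ext m
      show s * (t * (m : S)) = t * (s * m)
      rw [← mul_assoc, ← mul_assoc, hcl s t m m.2]
    · ext m
      show s * ((m : S) * t) = (s * m) * t
      rw [mul_assoc]
    · ext m
      show (t * (m : S)) * s = t * (m * s)
      rw [mul_assoc]
    · ext m
      show ((m : S) * t) * s = (m * s) * t
      rw [hcr t s m m.2]
  set E : Subring (AddMonoid.End M) :=
    Subring.closure (Set.range (J5291.Lm hl) ∪ Set.range (J5291.Rm hr)) with hE
  have hLE : ∀ s, J5291.Lm hl s ∈ E := fun s => Subring.subset_closure (Or.inl ⟨s, rfl⟩)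
  have hRE : ∀ s, J5291.Rm hr s ∈ E := fun s => Subring.subset_closure (Or.inr ⟨s, rfl⟩)
  have hEc : ∀ x ∈ E, ∀ y ∈ E, x * y = y * x := by
    have h1 := Subring.isMulCommutative_closure hcomm
    intro x hx y hy
    exact setLike_mul_comm hx hy
  have hnt : Nontrivial (AddMonoid.End M) := by
    refine ⟨⟨1, 0, fun h => hc ?_⟩⟩
    have h1 := DFunLike.congr_fun h (⟨c, hcM⟩ : M)
    exact congrArg Subtype.val h1
  have hfact : Fact p.Prime := ⟨hp⟩
  have hchar' : CharP (AddMonoid.End M) p := by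
    rw [CharP.charP_iff_prime_eq_zero hp]
    ext m
    have h1 : ((p : AddMonoid.End M) m) = p • m := by
      rw [← nsmul_one p]
      rfl
    rw [h1]
    exact hchar m
  -- the Frobenius
  have hfrob : ∀ x ∈ E, x ^ p ^ f = x := by
    intro x hx
    induction hx using Subring.closure_induction with
    | mem x hx =>
      rcases hx with ⟨s, rfl⟩ | ⟨s, rfl⟩
      · rw [← hq1, J5291.Lm_pow]
        ext m
        exact hpl s m m.2
      · rw [← hq1, J5291.Rm_pow]
        ext m
        exact hpr s m m.2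
    | zero => exact zero_pow hq0
    | one => exact one_pow _
    | add x y hx hy ihx ihy =>
      rw [add_pow_char_pow_of_commute p f (hEc x hx y hy : Commute x y), ihx, ihy]
    | neg x hx ihx =>
      have h1 := add_pow_char_pow_of_commute p f (hEc (-x) (E.neg_mem hx) x hx : Commute (-x) x)
      rw [neg_add_cancel, zero_pow hq0, ihx] at h1
      exact eq_neg_of_add_eq_zero_left h1.symm
    | mul x y hx hy ihx ihy =>
      rw [Commute.mul_pow (hEc x hx y hy), ihx, ihy]
  -- nonzero elements are invertible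
  have hinv : ∀ x ∈ E, x ≠ 0 → x ^ (p ^ f - 1) = 1 := by
    intro x hx hx0
    have hgE : x ^ (p ^ f - 1) ∈ E := E.pow_mem hx _
    have hxg : x * x ^ (p ^ f - 1) = x := by
      rw [← pow_succ', hq1]
      exact hfrob x hx
    have hgx : x ^ (p ^ f - 1) * x = x := by
      rw [← pow_succ, hq1]
      exact hfrob x hx
    have hgg : x ^ (p ^ f - 1) * x ^ (p ^ f - 1) = x ^ (p ^ f - 1) := by
      have h1 : x ^ (p ^ f - 1) = x * x ^ (p ^ f - 2) := by
        rw [← pow_succ']
        congr 1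
        omega
      conv_lhs => rw [h1, mul_assoc]
      rw [show x * (x ^ (p ^ f - 2) * (x * x ^ (p ^ f - 2))) =
        x * (x ^ (p ^ f - 2) * x) * x ^ (p ^ f - 2) by simp only [mul_assoc]]
      rw [← pow_succ, show p ^ f - 2 + 1 = p ^ f - 1 by omega, hxg, ← h1]
    set g := x ^ (p ^ f - 1) with hg
    have hg0 : g ≠ 0 := by
      intro h1
      rw [h1, mul_zero] at hxg
      exact hx0 hxg.symm
    have hgL : ∀ s, g * J5291.Lm hl s = J5291.Lm hl s * g := fun s => hEc _ hgE _ (hLE s)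
    have hgR : ∀ s, g * J5291.Rm hr s = J5291.Rm hr s * g := fun s => hEc _ hgE _ (hRE s)
    let K1 : AddSubgroup S :=
      { carrier := {s | ∃ h : s ∈ M, g ⟨s, h⟩ = ⟨s, h⟩}
        zero_mem' := ⟨M.zero_mem, map_zero g⟩
        add_mem' := by
          rintro a b ⟨ha, ha'⟩ ⟨hb, hb'⟩
          refine ⟨M.add_mem ha hb, ?_⟩
          have h1 := map_add g ⟨a, ha⟩ ⟨b, hb⟩
          rw [ha', hb'] at h1
          exact h1
        neg_mem' := by
          rintro a ⟨ha, ha'⟩
          refine ⟨M.neg_mem ha, ?_⟩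
          have h1 := map_neg g ⟨a, ha⟩
          rw [ha'] at h1
          exact h1 }
    let K2 : AddSubgroup S :=
      { carrier := {s | ∃ h : s ∈ M, g ⟨s, h⟩ = 0}
        zero_mem' := ⟨M.zero_mem, map_zero g⟩
        add_mem' := by
          rintro a b ⟨ha, ha'⟩ ⟨hb, hb'⟩
          refine ⟨M.add_mem ha hb, ?_⟩
          have h1 := map_add g ⟨a, ha⟩ ⟨b, hb⟩
          rw [ha', hb', add_zero] at h1
          exact h1
        neg_mem' := by
          rintro a ⟨ha, ha'⟩
          refine ⟨M.neg_mem ha, ?_⟩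
          have h1 := map_neg g ⟨a, ha⟩
          rw [ha', neg_zero] at h1
          exact h1 }
    have hK1L : ∀ s m : S, m ∈ K1 → s * m ∈ K1 := by
      rintro s m ⟨hm, hm'⟩
      refine ⟨hl s m hm, ?_⟩
      have h1 := DFunLike.congr_fun (hgL s) (⟨m, hm⟩ : M)
      change g (J5291.Lm hl s ⟨m, hm⟩) = J5291.Lm hl s (g ⟨m, hm⟩) at h1
      rw [hm'] at h1
      exact h1
    have hK1R : ∀ s m : S, m ∈ K1 → m * s ∈ K1 := by
      rintro s m ⟨hm, hm'⟩
      refine ⟨hr s m hm, ?_⟩
      have h1 := DFunLike.congr_fun (hgR s) (⟨m, hm⟩ : M)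
      change g (J5291.Rm hr s ⟨m, hm⟩) = J5291.Rm hr s (g ⟨m, hm⟩) at h1
      rw [hm'] at h1
      exact h1
    have hK2L : ∀ s m : S, m ∈ K2 → s * m ∈ K2 := by
      rintro s m ⟨hm, hm'⟩
      refine ⟨hl s m hm, ?_⟩
      have h1 := DFunLike.congr_fun (hgL s) (⟨m, hm⟩ : M)
      change g (J5291.Lm hl s ⟨m, hm⟩) = J5291.Lm hl s (g ⟨m, hm⟩) at h1
      rw [hm', map_zero] at h1
      exact h1
    have hK2R : ∀ s m : S, m ∈ K2 → m * s ∈ K2 := by
      rintro s m ⟨hm, hm'⟩
      refine ⟨hr s m hm, ?_⟩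
      have h1 := DFunLike.congr_fun (hgR s) (⟨m, hm⟩ : M)
      change g (J5291.Rm hr s ⟨m, hm⟩) = J5291.Rm hr s (g ⟨m, hm⟩) at h1
      rw [hm', map_zero] at h1
      exact h1
    have hggm : ∀ m : M, g (g m) = g m := fun m => DFunLike.congr_fun hgg m
    have hK1 : K1 ≠ ⊥ := by
      intro h1
      apply hg0
      ext m
      have h2 : ((g m : M) : S) ∈ K1 := ⟨(g m).2, hggm m⟩
      rw [h1, AddSubgroup.mem_bot] at h2
      exact h2
    have hcK1 : c ∈ K1 := hmin K1 (fun _ h => h.1) hK1L hK1R hK1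
    have hK2 : K2 = ⊥ := by
      by_contra h1
      have hcK2 : c ∈ K2 := hmin K2 (fun _ h => h.1) hK2L hK2R h1
      obtain ⟨h2, h3⟩ := hcK1
      obtain ⟨h4, h5⟩ := hcK2
      have h6 : (⟨c, h2⟩ : M) = 0 := h3.symm.trans h5
      exact hc (congrArg Subtype.val h6)
    ext m
    have h1 : ((m - g m : M) : S) ∈ K2 := by
      refine ⟨(m - g m).2, ?_⟩
      show g (m - g m) = 0
      rw [map_sub, hggm, sub_self]
    rw [hK2, AddSubgroup.mem_bot] at h1
    have h2 : m - g m = 0 := Subtype.ext h1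
    have h3 : g m = m := (sub_eq_zero.1 h2).symm
    rw [h3]
    rfl
  -- `E` is a domain
  let iE : CommRing E := { (inferInstance : Ring E) with
    mul_comm := fun x y => Subtype.ext (hEc x x.2 y y.2) }
  have hntE : Nontrivial E := ⟨⟨1, 0, fun h => one_ne_zero (congrArg Subtype.val h)⟩⟩
  have hdom : IsDomain E := by
    have h1 : NoZeroDivisors E := by
      refine ⟨fun {a b} hab => ?_⟩
      by_contra hcon
      push Not at hcon
      obtain ⟨ha, hb⟩ := hcon
      have h2 := hinv a a.2 (fun h => ha (Subtype.ext h))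
      have h3 : (a : AddMonoid.End M) * b = 0 := congrArg Subtype.val hab
      apply hb
      apply Subtype.ext
      show (b : AddMonoid.End M) = 0
      calc (b : AddMonoid.End M) = (a : AddMonoid.End M) ^ (p ^ f - 1) * b := by
            rw [h2, one_mul]
        _ = (a : AddMonoid.End M) ^ (p ^ f - 2) * (a * b) := by
            rw [← mul_assoc, ← pow_succ]
            congr 2
            omega
        _ = 0 := by rw [h3, mul_zero]
    exact NoZeroDivisors.to_isDomain E
  obtain ⟨hEfin, hEcard⟩ := J5291.card_le_of_pow (E := E) (p ^ f) hq2 fun e =>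
    Subtype.ext (hfrob e e.2)
  -- the evaluation at `c`
  have hsurj : Function.Surjective fun e : E => (e : AddMonoid.End M) ⟨c, hcM⟩ := by
    intro m
    rcases eq_or_ne m 0 with rfl | hm
    · exact ⟨0, rfl⟩
    let K : AddSubgroup S :=
      { carrier := {s | ∃ e ∈ E, ((e m : M) : S) = s}
        zero_mem' := ⟨0, E.zero_mem, rfl⟩
        add_mem' := by
          rintro a b ⟨e, he, rfl⟩ ⟨e', he', rfl⟩
          exact ⟨e + e', E.add_mem he he', rfl⟩
        neg_mem' := by
          rintro a ⟨e, he, rfl⟩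
          exact ⟨-e, E.neg_mem he, rfl⟩ }
    have hKM : K ≤ M := by
      rintro a ⟨e, -, rfl⟩
      exact (e m).2
    have hKL : ∀ s m : S, m ∈ K → s * m ∈ K := by
      rintro s a ⟨e, he, rfl⟩
      exact ⟨J5291.Lm hl s * e, E.mul_mem (hLE s) he, rfl⟩
    have hKR : ∀ s m : S, m ∈ K → m * s ∈ K := by
      rintro s a ⟨e, he, rfl⟩
      exact ⟨J5291.Rm hr s * e, E.mul_mem (hRE s) he, rfl⟩
    have hK0 : K ≠ ⊥ := by
      intro h1
      have h2 : (m : S) ∈ K := ⟨1, E.one_mem, rfl⟩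
      rw [h1, AddSubgroup.mem_bot] at h2
      exact hm (Subtype.ext h2)
    obtain ⟨e, he, hec⟩ := hmin K hKM hKL hKR hK0
    have hec' : e m = ⟨c, hcM⟩ := Subtype.ext hec
    have he0 : e ≠ 0 := by
      intro h1
      rw [h1] at hec
      exact hc hec.symm
    refine ⟨⟨e ^ (p ^ f - 2), E.pow_mem he _⟩, ?_⟩
    show (e ^ (p ^ f - 2)) ⟨c, hcM⟩ = m
    rw [← hec']
    have h3 : e ^ (p ^ f - 2) * e = 1 := by
      rw [← pow_succ, show p ^ f - 2 + 1 = p ^ f - 1 by omega]
      exact hinv e he he0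
    exact DFunLike.congr_fun h3 m
  have hMfin : Finite M := Finite.of_surjective _ hsurj
  refine ⟨hMfin, (Nat.card_le_card_of_surjective _ hsurj).trans hEcard, E, inferInstance,
    { toFun := fun s => (⟨J5291.Lm hl s, hLE s⟩, ⟨J5291.Rm hr s, hRE s⟩)
      map_zero' := by
        refine Prod.ext (Subtype.ext ?_) (Subtype.ext ?_)
        · ext m
          exact zero_mul (m : S)
        · ext m
          exact mul_zero (m : S)
      map_add' := fun s t => by
        refine Prod.ext (Subtype.ext ?_) (Subtype.ext ?_)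
        · ext m
          exact add_mul s t (m : S)
        · ext m
          exact mul_add (m : S) s t }, hEfin, hEcard, ?_⟩
  intro s hs m hm
  have h1 : J5291.Lm hl s = 0 := congrArg (fun z : E × E => (z.1 : AddMonoid.End M)) hs
  have h2 : J5291.Rm hr s = 0 := congrArg (fun z : E × E => (z.2 : AddMonoid.End M)) hs
  exact ⟨congrArg Subtype.val (DFunLike.congr_fun h1 (⟨m, hm⟩ : M)),
    congrArg Subtype.val (DFunLike.congr_fun h2 (⟨m, hm⟩ : M))⟩

/-- a defect: `x^q - x` or `xy - yx` -/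
def IsDefect {R : Type*} [NonUnitalRing R] (q : ℕ) (u : R) : Prop :=
  (∃ x : R, u = pw x (q - 1) - x) ∨ ∃ x y : R, u = x * y - y * x

theorem cls_pw_left {R : Type*} [NonUnitalRing R] (x : R) (n : ℕ) : x * pw x n = pw x (n + 1) := by
  induction n with
  | zero => rfl
  | succ n ih =>
    show x * (pw x n * x) = pw x (n + 1) * x
    rw [← mul_assoc, ih]

theorem cls_pw_mul {R : Type*} [NonUnitalRing R] (x : R) (a b : ℕ) :
    pw x a * pw x b = pw x (a + b + 1) := by
  induction b with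
  | zero => rfl
  | succ b ih =>
    show pw x a * (pw x b * x) = pw x (a + b + 1) * x
    rw [← mul_assoc, ih]

theorem cls_pw_per {R : Type*} [NonUnitalRing R] (s : R) (Q : ℕ) (h : pw s (1 + Q) = pw s 1) (k : ℕ) :
    pw s (k + 1 + Q) = pw s (k + 1) := by
  induction k with
  | zero => simpa using h
  | succ k ih =>
    have h1 : pw s (k + 1 + 1 + Q) = pw s (k + 1 + Q) * s := by
      have : k + 1 + 1 + Q = (k + 1 + Q) + 1 := by ring
      rw [this]; rfl
    rw [h1, ih]; rfl

theorem cls_pw_zero {R : Type*} [NonUnitalRing R] (s : R) (h : pw s 1 = 0) (k : ℕ) :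
    pw s (k + 1) = 0 := by
  induction k with
  | zero => exact h
  | succ k ih =>
    show pw s (k + 1) * s = 0
    rw [ih, zero_mul]

/-- the two-sided ideal generated by the defects -/
def clsJ {S : Type} [NonUnitalRing S] (q : ℕ) : AddSubgroup S :=
  sInf {K : AddSubgroup S | (∀ s m : S, m ∈ K → s * m ∈ K) ∧ (∀ s m : S, m ∈ K → m * s ∈ K) ∧
    ∀ u : S, IsDefect q u → u ∈ K}

theorem clsJ_left {S : Type} [NonUnitalRing S] (q : ℕ) (s m : S) (hm : m ∈ (clsJ q : AddSubgroup S)) :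
    s * m ∈ (clsJ q : AddSubgroup S) := by
  unfold clsJ at *
  rw [AddSubgroup.mem_sInf] at *
  intro K hK
  exact hK.1 s m (hm K hK)

theorem clsJ_right {S : Type} [NonUnitalRing S] (q : ℕ) (s m : S)
    (hm : m ∈ (clsJ q : AddSubgroup S)) :
    m * s ∈ (clsJ q : AddSubgroup S) := by
  unfold clsJ at *
  rw [AddSubgroup.mem_sInf] at *
  intro K hK
  exact hK.2.1 s m (hm K hK)

theorem clsJ_def {S : Type} [NonUnitalRing S] (q : ℕ) (u : S) (hu : IsDefect q u) :
    u ∈ (clsJ q : AddSubgroup S) := by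
  unfold clsJ
  rw [AddSubgroup.mem_sInf]
  intro K hK
  exact hK.2.2 u hu

theorem clsJ_le {S : Type} [NonUnitalRing S] (q : ℕ) (K : AddSubgroup S)
    (h1 : ∀ s m : S, m ∈ K → s * m ∈ K) (h2 : ∀ s m : S, m ∈ K → m * s ∈ K)
    (h3 : ∀ u : S, IsDefect q u → u ∈ K) : (clsJ q : AddSubgroup S) ≤ K :=
  sInf_le ⟨h1, h2, h3⟩

theorem clsJ_sq {S : Type} [NonUnitalRing S] (q : ℕ)
    (h1 : ∀ u v : S, IsDefect q u → IsDefect q v → u * v = 0)
    (h2 : ∀ u v t : S, IsDefect q u → IsDefect q v → u * t * v = 0)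
    (i j : S) (hi : i ∈ (clsJ q : AddSubgroup S)) (hj : j ∈ (clsJ q : AddSubgroup S)) :
    i * j = 0 := by
  let A1 : AddSubgroup S :=
    { carrier := {i | ∀ v, IsDefect q v → i * v = 0 ∧ ∀ t, i * t * v = 0}
      zero_mem' := by
        intro v _
        simp
      add_mem' := by
        intro a b ha hb v hv
        refine ⟨?_, fun t => ?_⟩
        · rw [add_mul, (ha v hv).1, (hb v hv).1, add_zero]
        · rw [add_mul, add_mul, (ha v hv).2 t, (hb v hv).2 t, add_zero]
      neg_mem' := by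
        intro a ha v hv
        refine ⟨?_, fun t => ?_⟩
        · rw [neg_mul, (ha v hv).1, neg_zero]
        · rw [neg_mul, neg_mul, (ha v hv).2 t, neg_zero] }
  have hA1 : (clsJ q : AddSubgroup S) ≤ A1 := by
    apply clsJ_le
    · intro s m hm v hv
      refine ⟨?_, fun t => ?_⟩
      · rw [mul_assoc, (hm v hv).1, mul_zero]
      · rw [mul_assoc s m t, mul_assoc, (hm v hv).2 t, mul_zero]
    · intro s m hm v hv
      refine ⟨(hm v hv).2 s, fun t => ?_⟩
      rw [mul_assoc m s t]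
      exact (hm v hv).2 (s * t)
    · intro u hu v hv
      exact ⟨h1 u v hu hv, fun t => h2 u v t hu hv⟩
  let A2 : AddSubgroup S :=
    { carrier := {j | ∀ i ∈ A1, i * j = 0}
      zero_mem' := by
        intro i _
        simp
      add_mem' := by
        intro a b ha hb i hi
        rw [mul_add, ha i hi, hb i hi, add_zero]
      neg_mem' := by
        intro a ha i hi
        rw [mul_neg, ha i hi, neg_zero] }
  have hA1r : ∀ s m : S, m ∈ A1 → m * s ∈ A1 := by
    intro s m hm v hv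
    refine ⟨(hm v hv).2 s, fun t => ?_⟩
    rw [mul_assoc m s t]
    exact (hm v hv).2 (s * t)
  have hA2 : (clsJ q : AddSubgroup S) ≤ A2 := by
    apply clsJ_le
    · intro s m hm i hi
      rw [← mul_assoc]
      exact hm (i * s) (hA1r s i hi)
    · intro s m hm i hi
      rw [← mul_assoc, hm i hi, zero_mul]
    · intro u hu i hi
      exact (hi u hu).1
  exact hA2 hj i (hA1 hi)

theorem cls_annJ_le {S : Type} [NonUnitalRing S] (Q : ℕ) (hQ : 1 ≤ Q)
    (c : S) (hc : c ≠ 0) (hcJ : c ∈ (clsJ (Q + 1) : AddSubgroup S))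
    (hmin : ∀ K : AddSubgroup S, (∀ s m : S, m ∈ K → s * m ∈ K) →
      (∀ s m : S, m ∈ K → m * s ∈ K) → K ≠ ⊥ → c ∈ K)
    (s : S) (hs : ∀ m ∈ (clsJ (Q + 1) : AddSubgroup S), s * m = 0 ∧ m * s = 0) :
    s ∈ (clsJ (Q + 1) : AddSubgroup S) := by
  have hd : pw s Q - s ∈ (clsJ (Q + 1) : AddSubgroup S) :=
    clsJ_def (Q + 1) _ (Or.inl ⟨s, by simp⟩)
  have hper : pw s (1 + Q) = pw s 1 := by
    have h3 := (hs _ hd).2
    rw [sub_mul, sub_eq_zero] at h3
    have h4 : pw s (1 + Q) = pw s Q * s := by rw [add_comm 1 Q]; rfl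
    rw [h4, h3]; rfl
  obtain ⟨k, hk⟩ : ∃ k, Q = k + 1 := ⟨Q - 1, by omega⟩
  set e : S := pw s (2 * k + 1) with he
  have hee : e * e = e := by
    rw [he, cls_pw_mul]
    have h3 : 2 * k + 1 + (2 * k + 1) + 1 = (2 * k + Q) + 1 + Q := by omega
    have h4 : (2 * k + Q) + 1 = 2 * k + 1 + Q := by omega
    rw [h3, cls_pw_per s Q hper, h4, cls_pw_per s Q hper]
  have hes : e * pw s 1 = pw s 1 := by
    rw [he, cls_pw_mul]
    have h3 : 2 * k + 1 + 1 + 1 = Q + 1 + Q := by omega
    have h4 : Q + 1 = 0 + 1 + Q := by omega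
    rw [h3, cls_pw_per s Q hper, h4, cls_pw_per s Q hper]
  by_cases he0 : e = 0
  · rw [he0, zero_mul] at hes
    have h3 : pw s Q = 0 := by
      rw [hk]; exact cls_pw_zero s hes.symm k
    rw [h3, zero_sub] at hd
    simpa using (clsJ (Q + 1) : AddSubgroup S).neg_mem hd
  · exfalso
    have heJ : ∀ m ∈ (clsJ (Q + 1) : AddSubgroup S), e * m = 0 ∧ m * e = 0 := by
      intro m hm
      refine ⟨?_, ?_⟩
      · have h3 : e = pw s (2 * k) * s := rfl
        rw [h3, mul_assoc, (hs m hm).1, mul_zero]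
      · have h3 : e = s * pw s (2 * k) := (cls_pw_left s (2 * k)).symm
        rw [h3, ← mul_assoc, (hs m hm).2, zero_mul]
    have hcomm : ∀ x : S, e * x = x * e := by
      intro x
      have hx : e * x - x * e ∈ (clsJ (Q + 1) : AddSubgroup S) :=
        clsJ_def (Q + 1) _ (Or.inr ⟨e, x, rfl⟩)
      have h3 := (heJ _ hx).1
      have h4 := (heJ _ hx).2
      rw [mul_sub, ← mul_assoc, hee, sub_eq_zero, ← mul_assoc] at h3
      rw [sub_mul, mul_assoc x e e, hee, sub_eq_zero] at h4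
      rw [h3, h4]
    have hcK : c ∈ (AddMonoidHom.mulLeft e).range := by
      apply hmin
      · rintro t m ⟨x, rfl⟩
        refine ⟨t * x, ?_⟩
        simp only [AddMonoidHom.coe_mulLeft]
        rw [← mul_assoc, ← mul_assoc, hcomm t]
      · rintro t m ⟨x, rfl⟩
        refine ⟨x * t, ?_⟩
        simp only [AddMonoidHom.coe_mulLeft]
        rw [mul_assoc]
      · intro hbot
        have h3 : e ∈ (AddMonoidHom.mulLeft e).range := ⟨e, hee⟩
        rw [hbot, AddSubgroup.mem_bot] at h3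
        exact he0 h3
    obtain ⟨x, hx⟩ := hcK
    simp only [AddMonoidHom.coe_mulLeft] at hx
    have h3 : e * c = c := by rw [← hx, ← mul_assoc, hee]
    rw [(heJ c hcJ).1] at h3
    exact hc h3.symm

theorem card_le_of_si {S : Type} [NonUnitalRing S] (p f : ℕ) (hp : p.Prime) (hf : 1 ≤ f)
    (hchar : ∀ x : S, p • x = 0)
    (h1 : ∀ u v : S, IsDefect (p ^ f) u → IsDefect (p ^ f) v → u * v = 0)
    (h2 : ∀ u v t : S, IsDefect (p ^ f) u → IsDefect (p ^ f) v → u * t * v = 0)
    (c : S) (hc : c ≠ 0)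
    (hmin : ∀ K : AddSubgroup S, (∀ s m : S, m ∈ K → s * m ∈ K) →
      (∀ s m : S, m ∈ K → m * s ∈ K) → K ≠ ⊥ → c ∈ K) :
    Finite S ∧ Nat.card S ≤ (p ^ f) ^ 3 := by
  have hq2 : 2 ≤ p ^ f := by
    calc 2 ≤ p := hp.two_le
      _ = p ^ 1 := (pow_one p).symm
      _ ≤ p ^ f := Nat.pow_le_pow_right hp.pos hf
  obtain ⟨Q, hQ⟩ : ∃ Q, p ^ f = Q + 1 := ⟨p ^ f - 1, by omega⟩
  have hQ1 : 1 ≤ Q := by omega
  have hQ' : p ^ f - 1 = Q := by omega
  have hcube : p ^ f ≤ (p ^ f) ^ 3 := Nat.le_self_pow (by norm_num) _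
  by_cases hJ : (clsJ (p ^ f) : AddSubgroup S) = ⊥
  · have hd0 : ∀ u : S, IsDefect (p ^ f) u → u = 0 := by
      intro u hu
      have := clsJ_def (p ^ f) u hu
      rwa [hJ, AddSubgroup.mem_bot] at this
    have hcm : ∀ x y : S, x * y = y * x := fun x y => sub_eq_zero.1 (hd0 _ (Or.inr ⟨x, y, rfl⟩))
    have hpw : ∀ x : S, pw x (p ^ f - 1) = x := fun x => sub_eq_zero.1 (hd0 _ (Or.inl ⟨x, rfl⟩))
    obtain ⟨hfin, hcard, -⟩ := lemmaM p f hp hf hchar (⊤ : AddSubgroup S)
      (fun s m _ => AddSubgroup.mem_top _) (fun s m _ => AddSubgroup.mem_top _)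
      (fun s t m _ => by rw [hcm s t]) (fun s t m _ => by rw [mul_assoc, hcm s t, ← mul_assoc])
      (fun s m _ => by rw [hpw]) (fun s m _ => by rw [hpw]) c hc (AddSubgroup.mem_top _)
      (fun K _ h3 h4 h5 => hmin K h3 h4 h5)
    have hT : Nat.card (⊤ : AddSubgroup S) = Nat.card S := AddSubgroup.card_top
    have hfS : Finite S := by
      apply Nat.finite_of_card_ne_zero
      rw [← hT]
      exact Nat.card_pos.ne'
    exact ⟨hfS, by rw [← hT]; exact hcard.trans hcube⟩
  · have hcJ : c ∈ (clsJ (p ^ f) : AddSubgroup S) :=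
      hmin _ (clsJ_left (p ^ f)) (clsJ_right (p ^ f)) hJ
    have hsq := clsJ_sq (p ^ f) h1 h2
    obtain ⟨hfin, hcard, E, _, φ, hE, hEc, hφ⟩ := lemmaM p f hp hf hchar (clsJ (p ^ f))
      (clsJ_left (p ^ f)) (clsJ_right (p ^ f))
      (fun s t m hm => by
        have h3 := hsq _ m (clsJ_def (p ^ f) _ (Or.inr ⟨s, t, rfl⟩)) hm
        rwa [sub_mul, sub_eq_zero] at h3)
      (fun s t m hm => by
        have h3 := hsq m _ hm (clsJ_def (p ^ f) _ (Or.inr ⟨s, t, rfl⟩))
        rwa [mul_sub, sub_eq_zero, ← mul_assoc, ← mul_assoc] at h3)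
      (fun s m hm => by
        have h3 := hsq _ m (clsJ_def (p ^ f) _ (Or.inl ⟨s, rfl⟩)) hm
        rwa [sub_mul, sub_eq_zero] at h3)
      (fun s m hm => by
        have h3 := hsq m _ hm (clsJ_def (p ^ f) _ (Or.inl ⟨s, rfl⟩))
        rwa [mul_sub, sub_eq_zero] at h3)
      c hc hcJ (fun K _ h3 h4 h5 => hmin K h3 h4 h5)
    have hker : φ.ker ≤ (clsJ (p ^ f) : AddSubgroup S) := by
      intro s hs
      have h3 := hφ s hs
      rw [hQ] at h3 hcJ ⊢
      exact cls_annJ_le Q hQ1 c hc hcJ hmin s h3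
    have hkf : Finite φ.ker :=
      Finite.of_injective (AddSubgroup.inclusion hker) (AddSubgroup.inclusion_injective hker)
    have hkc : Nat.card φ.ker ≤ p ^ f :=
      (Nat.card_le_card_of_injective (AddSubgroup.inclusion hker)
        (AddSubgroup.inclusion_injective hker)).trans hcard
    have hrc : Nat.card φ.range ≤ p ^ f * p ^ f := by
      calc Nat.card φ.range ≤ Nat.card (E × E) :=
            Nat.card_le_card_of_injective (fun x : φ.range => (x : E × E)) Subtype.val_injective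
        _ = Nat.card E * Nat.card E := Nat.card_prod E E
        _ ≤ p ^ f * p ^ f := Nat.mul_le_mul hEc hEc
    have hmul : Nat.card φ.ker * Nat.card φ.range = Nat.card S := by
      rw [← AddSubgroup.index_ker]
      exact φ.ker.card_mul_index
    have hkp : 0 < Nat.card φ.ker := Nat.card_pos
    have hrp : 0 < Nat.card φ.range := Nat.card_pos
    have hSp : 0 < Nat.card S := by rw [← hmul]; exact Nat.mul_pos hkp hrp
    refine ⟨Nat.finite_of_card_ne_zero hSp.ne', ?_⟩
    calc Nat.card S = Nat.card φ.ker * Nat.card φ.range := hmul.symm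
      _ ≤ p ^ f * (p ^ f * p ^ f) := Nat.mul_le_mul hkc hrc
      _ = (p ^ f) ^ 3 := by ring

end Pool.Agent.Helper446_ENG
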