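import Pool.Agent.Helper446_ENG.Generic
import Pool.Agent.Helper446_ENG.SI

/-! The finitely based variety of all rings with `p x = 0` and `u v = u t v = 0` for all `u, v` of the form
`x^q - x` or `x y - y x`, `q = p^f`: it is residually of order at most `q^3`. -/

namespace Pool.Agent.Helper446_ENG

open RTerm

/-- the term for `pw` -/
def tpw (t : RTerm) : ℕ → RTerm
  | 0 => t
  | n + 1 => .mul (tpw t n) t

/-- the term for `n • t` -/
def tns (t : RTerm) : ℕ → RTerm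
  | 0 => .zero
  | n + 1 => .add (tns t n) t

lemma eval_tpw {R : Type*} [NonUnitalRing R] (v : ℕ → R) (t : RTerm) (n : ℕ) :
    (tpw t n).eval v = pw (t.eval v) n := by
  induction n with
  | zero => rfl
  | succ n ih => simp [tpw, pw, RTerm.eval, ih]

lemma eval_tns {R : Type*} [NonUnitalRing R] (v : ℕ → R) (t : RTerm) (n : ℕ) :
    (tns t n).eval v = n • (t.eval v) := by
  induction n with
  | zero => simp [tns, RTerm.eval]
  | succ n ih => simp [tns, RTerm.eval, ih, add_smul]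

/-- `x_i^q - x_i` -/
def d1 (q i : ℕ) : RTerm := .add (tpw (.var i) (q - 1)) (.neg (.var i))

/-- `x_i x_j - x_j x_i` -/
def d2 (i j : ℕ) : RTerm := .add (.mul (.var i) (.var j)) (.neg (.mul (.var j) (.var i)))

lemma eval_d1 {R : Type*} [NonUnitalRing R] (v : ℕ → R) (q i : ℕ) :
    (d1 q i).eval v = pw (v i) (q - 1) - v i := by
  simp [d1, RTerm.eval, eval_tpw, sub_eq_add_neg]

lemma eval_d2 {R : Type*} [NonUnitalRing R] (v : ℕ → R) (i j : ℕ) :
    (d2 i j).eval v = v i * v j - v j * v i := by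
  simp [d2, RTerm.eval, sub_eq_add_neg]

/-- the finite basis -/
def basis (p q : ℕ) : Set RTerm :=
  {tns (.var 0) p} ∪
    {t | ∃ u ∈ ({d1 q 0, d2 0 1} : Set RTerm), ∃ w ∈ ({d1 q 2, d2 2 3} : Set RTerm),
      t = .mul u w ∨ t = .mul (.mul u (.var 4)) w}

lemma basis_finite (p q : ℕ) : (basis p q).Finite := by
  apply (Set.finite_singleton _).union
  have : {t | ∃ u ∈ ({d1 q 0, d2 0 1} : Set RTerm), ∃ w ∈ ({d1 q 2, d2 2 3} : Set RTerm),
      t = .mul u w ∨ t = .mul (.mul u (.var 4)) w} =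
      ⋃ u ∈ ({d1 q 0, d2 0 1} : Set RTerm), ⋃ w ∈ ({d1 q 2, d2 2 3} : Set RTerm),
        ({.mul u w, .mul (.mul u (.var 4)) w} : Set RTerm) := by
    ext t
    simp only [Set.mem_setOf_eq, Set.mem_iUnion, exists_prop, Set.mem_insert_iff, Set.mem_singleton_iff]
  rw [this]
  refine Set.Finite.biUnion (Set.toFinite _) fun u _ => ?_
  refine Set.Finite.biUnion (Set.toFinite _) fun w _ => ?_
  exact Set.toFinite _

section

variable {S : Type} [NonUnitalRing S] {p q : ℕ}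

lemma basis_char (h : Sat S (basis p q)) (x : S) : p • x = 0 := by
  have := h _ (Or.inl rfl) (fun _ => x)
  rwa [eval_tns] at this

/-- realize a defect by an assignment of the variables `i, i+1` -/
lemma exists_defect {u : S} (hu : IsDefect q u) (i : ℕ) (a b : RTerm)
    (ha : a = d1 q i) (hb : b = d2 i (i + 1)) :
    ∃ t ∈ ({a, b} : Set RTerm), ∃ x y : S, ∀ v : ℕ → S, v i = x → v (i + 1) = y → t.eval v = u := by
  subst ha hb
  rcases hu with ⟨x, rfl⟩ | ⟨x, y, rfl⟩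
  · exact ⟨_, Or.inl rfl, x, x, fun v hx _ => by rw [eval_d1, hx]⟩
  · exact ⟨_, Or.inr rfl, x, y, fun v hx hy => by rw [eval_d2, hx, hy]⟩

lemma basis_mul (h : Sat S (basis p q)) (u w t : S) (hu : IsDefect q u) (hw : IsDefect q w) :
    u * w = 0 ∧ u * t * w = 0 := by
  obtain ⟨a, ha, x, y, hxy⟩ := exists_defect hu 0 _ _ rfl rfl
  obtain ⟨b, hb, z, s, hzs⟩ := exists_defect hw 2 _ _ rfl rfl
  let v : ℕ → S := fun i => match i with
    | 0 => x
    | 1 => y
    | 2 => z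
    | 3 => s
    | _ => t
  have h1 := hxy v rfl rfl
  have h2 := hzs v rfl rfl
  constructor
  · have := h _ (Or.inr ⟨a, ha, b, hb, Or.inl rfl⟩) v
    rwa [RTerm.eval, h1, h2] at this
  · have := h _ (Or.inr ⟨a, ha, b, hb, Or.inr rfl⟩) v
    rwa [RTerm.eval, RTerm.eval, h1, h2] at this

end

/-- Ideals avoiding a set of elements. -/
lemma exists_maximal_avoid {S : Type*} [NonUnitalRing S] (Z : Set S) (hZ : (0 : S) ∉ Z) :
    ∃ K : TwoSidedIdeal S, (∀ z ∈ Z, z ∉ K) ∧ ∀ K' : TwoSidedIdeal S, K < K' → ∃ z ∈ Z, z ∈ K' := by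
  let P : Set (TwoSidedIdeal S) := {K | ∀ z ∈ Z, z ∉ K}
  have hbot : (⊥ : TwoSidedIdeal S) ∈ P := by
    intro z hz hzb
    rw [TwoSidedIdeal.mem_bot] at hzb
    exact hZ (hzb ▸ hz)
  have hchain : ∀ c ⊆ P, IsChain (· ≤ ·) c → ∀ y ∈ c, ∃ ub ∈ P, ∀ z ∈ c, z ≤ ub := by
    intro c hc hchain y hy
    have hdir : ∀ a b : TwoSidedIdeal S, a ∈ c → b ∈ c → ∃ d ∈ c, a ≤ d ∧ b ≤ d := by
      intro a b ha hb
      rcases hchain.total ha hb with h | h
      · exact ⟨b, hb, h, le_rfl⟩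
      · exact ⟨a, ha, le_rfl, h⟩
    let U : TwoSidedIdeal S := TwoSidedIdeal.mk' {x | ∃ K ∈ c, x ∈ K}
      ⟨y, hy, y.zero_mem⟩
      (by
        rintro x x' ⟨K, hK, hx⟩ ⟨K', hK', hx'⟩
        obtain ⟨d, hd, h1, h2⟩ := hdir K K' hK hK'
        exact ⟨d, hd, d.add_mem (h1 hx) (h2 hx')⟩)
      (by
        rintro x ⟨K, hK, hx⟩
        exact ⟨K, hK, K.neg_mem hx⟩)
      (by
        rintro x x' ⟨K, hK, hx⟩
        exact ⟨K, hK, K.mul_mem_left _ _ hx⟩)
      (by
        rintro x x' ⟨K, hK, hx⟩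
        exact ⟨K, hK, K.mul_mem_right _ _ hx⟩)
    refine ⟨U, ?_, ?_⟩
    · intro z hz hzU
      rw [TwoSidedIdeal.mem_mk'] at hzU
      obtain ⟨K, hK, hzK⟩ := hzU
      exact hc hK z hz hzK
    · intro K hK x hx
      rw [TwoSidedIdeal.mem_mk']
      exact ⟨K, hK, hx⟩
  obtain ⟨K, -, hK⟩ := zorn_le_nonempty₀ P hchain ⊥ hbot
  refine ⟨K, hK.prop, fun K' hK' => ?_⟩
  by_contra hcon
  push Not at hcon
  exact absurd (hK.le_of_ge (y := K') hcon hK'.le) (not_le_of_gt hK')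

/-- every nonzero ideal of the quotient by a maximal ideal avoiding `Z` meets `Z` -/
lemma quot_meets {S : Type*} [NonUnitalRing S] {Z : Set S} {K : TwoSidedIdeal S}
    (hK : ∀ K' : TwoSidedIdeal S, K < K' → ∃ z ∈ Z, z ∈ K')
    (A : AddSubgroup K.ringCon.Quotient) (hl : ∀ s m, m ∈ A → s * m ∈ A)
    (hr : ∀ s m, m ∈ A → m * s ∈ A) (hA : A ≠ ⊥) : ∃ z ∈ Z, qmk K z ∈ A := by
  let K' : TwoSidedIdeal S := TwoSidedIdeal.mk' {x | qmk K x ∈ A}
    (by
      show qmk K 0 ∈ A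
      rw [map_zero]; exact A.zero_mem)
    (by
      intro x y hx hy
      show qmk K (x + y) ∈ A
      rw [map_add]; exact A.add_mem hx hy)
    (by
      intro x hx
      show qmk K (-x) ∈ A
      rw [map_neg]; exact A.neg_mem hx)
    (by
      intro x y hy
      show qmk K (x * y) ∈ A
      rw [map_mul]; exact hl _ _ hy)
    (by
      intro x y hx
      show qmk K (x * y) ∈ A
      rw [map_mul]; exact hr _ _ hx)
  have hmem : ∀ x, x ∈ K' ↔ qmk K x ∈ A := fun x => TwoSidedIdeal.mem_mk' _ _ _ _ _ _ x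
  have hlt : K < K' := by
    refine lt_of_le_of_ne ?_ ?_
    · intro x hx
      show x ∈ K'
      rw [hmem, (qmk_eq_zero_iff K x).2 hx]
      exact A.zero_mem
    · intro heq
      apply hA
      rw [eq_bot_iff]
      intro y hy
      obtain ⟨x, rfl⟩ := qmk_surjective K y
      have hx : x ∈ K' := (hmem x).2 hy
      rw [← heq] at hx
      rw [AddSubgroup.mem_bot]
      exact (qmk_eq_zero_iff K x).2 hx
  obtain ⟨z, hz, hzK⟩ := hK K' hlt
  exact ⟨z, hz, (hmem z).1 hzK⟩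

/-- the basis defines a variety residually of bounded order -/
theorem resBdd_of_basis (p f : ℕ) (hp : p.Prime) (hf : 1 ≤ f) (S : Type) [NonUnitalRing S]
    (hS : Sat S (basis p (p ^ f))) : ResBdd ((p ^ f) ^ 3) S := by
  intro c hc
  obtain ⟨K, hcK, hmax⟩ := exists_maximal_avoid ({c} : Set S) (by
    intro h
    exact hc (Set.mem_singleton_iff.1 h).symm)
  have hQ : Sat K.ringCon.Quotient (basis p (p ^ f)) := hS.of_surjective (qmk K) (qmk_surjective K)
  have hcK' : c ∉ K := hcK c rfl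
  obtain ⟨h1, h2⟩ := card_le_of_si p f hp hf (basis_char hQ)
    (fun u v hu hv => (basis_mul hQ u v 0 hu hv).1)
    (fun u v t hu hv => (basis_mul hQ u v t hu hv).2) (qmk K c)
    (fun h => hcK' ((qmk_eq_zero_iff K c).1 h))
    (by
      intro A hl hr hA
      obtain ⟨z, hz, hzA⟩ := quot_meets hmax A hl hr hA
      rw [Set.mem_singleton_iff.1 hz] at hzA
      exact hzA)
  exact ⟨K, hcK', h1, h2⟩

end Pool.Agent.Helper446_ENG
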