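import Pool.Agent.Helper446_ENG.Defs

/-! A subvariety of a finitely based variety of rings which is residually of bounded finite order
is a Cross variety. -/

namespace Pool.Agent.Helper446_ENG

/-- `S` is residually of order at most `N`. -/
def ResBdd (N : ℕ) (S : Type) [NonUnitalRing S] : Prop :=
  ∀ c : S, c ≠ 0 → ∃ K : TwoSidedIdeal S, c ∉ K ∧ Finite K.ringCon.Quotient ∧
    Nat.card K.ringCon.Quotient ≤ N

/-- A set with `m` elements (a copy of `Fin m` without algebraic structure). -/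
def Car (m : ℕ) : Type := Fin m

instance (m : ℕ) : Finite (Car m) := inferInstanceAs (Finite (Fin m))

lemma card_car (m : ℕ) : Nat.card (Car m) = m := by
  show Nat.card (Fin m) = m
  simp

/-- index set of all ring structures on `Car m`, `m ≤ N` -/
abbrev Idx (N : ℕ) : Type := Σ m : Fin (N + 1), NonUnitalRing (Car m)

instance finite_nonUnitalRing (m : ℕ) : Finite (NonUnitalRing (Car m)) := by
  let f : NonUnitalRing (Car m) → (Car m → Car m → Car m) × (Car m → Car m → Car m) :=
    fun ρ => (fun a b => ρ.add a b, fun a b => ρ.mul a b)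
  refine Finite.of_injective f ?_
  intro ρ₁ ρ₂ h
  have h1 : (f ρ₁).1 = (f ρ₂).1 := by rw [h]
  have h2 : (f ρ₁).2 = (f ρ₂).2 := by rw [h]
  apply NonUnitalRing.ext
  · funext a b
    exact congrFun (congrFun h1 a) b
  · funext a b
    exact congrFun (congrFun h2 a) b

instance (N : ℕ) : Finite (Idx N) := inferInstance

instance {N : ℕ} (i : Idx N) : NonUnitalRing (Car i.1) := i.2

/-- transport a ring of order `≤ N` to a ring structure on `Car m` -/
lemma exists_idx {N : ℕ} {Q : Type} [NonUnitalRing Q] (hQ : Finite Q) (hc : Nat.card Q ≤ N) :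
    ∃ i : Idx N, Nonempty (Q ≃+* Car i.1) := by
  let e0 : Q ≃ Fin (Nat.card Q) := Finite.equivFin Q
  let m : Fin (N + 1) := ⟨Nat.card Q, Nat.lt_succ_of_le hc⟩
  let e : Q ≃ Car m := e0
  let ρ : NonUnitalRing (Car m) := e.symm.nonUnitalRing
  refine ⟨⟨m, ρ⟩, ⟨?_⟩⟩
  exact (Equiv.ringEquiv e.symm).symm

lemma ResBdd.exists_hom {N : ℕ} {S : Type} [NonUnitalRing S] (h : ResBdd N S) (c : S) (hc : c ≠ 0) :
    ∃ (i : Idx N) (f : S →ₙ+* Car i.1), Function.Surjective f ∧ f c ≠ 0 := by
  obtain ⟨K, hcK, hfin, hcard⟩ := h c hc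
  obtain ⟨i, ⟨e⟩⟩ := exists_idx hfin hcard
  refine ⟨i, (e : K.ringCon.Quotient →ₙ+* Car i.1).comp (qmk K), ?_, ?_⟩
  · intro y
    obtain ⟨x, hx⟩ := qmk_surjective K (e.symm y)
    refine ⟨x, ?_⟩
    show e (qmk K x) = y
    rw [hx]
    exact e.apply_symm_apply y
  · intro h0
    have h1 : e (qmk K c) = 0 := h0
    rw [map_eq_zero_iff e e.injective, qmk_eq_zero_iff] at h1
    exact hcK h1

/-- rings with enough quotients satisfying `T` satisfy `T` -/
lemma sat_of_homs {S : Type} [NonUnitalRing S] {T : Set RTerm}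
    (h : ∀ c : S, c ≠ 0 → ∃ (Q : Type) (_ : NonUnitalRing Q) (f : S →ₙ+* Q), Sat Q T ∧ f c ≠ 0) :
    Sat S T := by
  intro t ht v
  by_contra hne
  obtain ⟨Q, ρ, f, hQ, hf⟩ := h _ hne
  exact hf (by rw [map_eval]; exact hQ t ht _)

/-- locally finite -/
lemma finite_of_fg {N : ℕ} {S : Type} [NonUnitalRing S] (h : ResBdd N S) (s : Set S) (hs : s.Finite)
    (hgen : NonUnitalSubring.closure s = ⊤) : Finite S := by
  have : Finite s := hs
  let H : Type := Σ i : Idx N, S →ₙ+* Car i.1
  have : ∀ i : Idx N, Finite (S →ₙ+* Car i.1) := by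
    intro i
    let g : (S →ₙ+* Car i.1) → (s → Car i.1) := fun f x => f x
    refine Finite.of_injective g ?_
    intro f₁ f₂ hf
    apply NonUnitalRingHom.eq_of_eqOn_set_dense hgen
    intro x hx
    exact congrFun hf ⟨x, hx⟩
  have : Finite H := inferInstance
  let Ψ : S → (∀ k : H, Car k.1.1) := fun x k => k.2 x
  refine Finite.of_injective Ψ ?_
  intro x y hxy
  by_contra hne
  obtain ⟨i, f, -, hf⟩ := h.exists_hom (x - y) (sub_ne_zero.2 hne)
  apply hf
  have := congrFun hxy ⟨i, f⟩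
  rw [map_sub, sub_eq_zero]
  exact this

/-- critical rings are small -/
lemma card_le_of_critical {N : ℕ} {R : Type} [NonUnitalRing R] (h : ResBdd N R) (hR : IsCritical R) :
    Nat.card R ≤ N := by
  by_contra hlt
  push Not at hlt
  have := hR.1
  apply hR.2
  intro t ht v
  by_contra hne
  obtain ⟨i, f, hf, hfc⟩ := h.exists_hom _ hne
  apply hfc
  rw [map_eval]
  refine ht (Car i.1) ⟨⟨⊤, f.comp (NonUnitalSubringClass.subtype (⊤ : NonUnitalSubring R)), ?_⟩, ?_⟩ _
  · intro y
    obtain ⟨x, hx⟩ := hf y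
    exact ⟨⟨x, trivial⟩, hx⟩
  · rintro ⟨e⟩
    have h1 : Nat.card (Car i.1) = Nat.card R := Nat.card_congr e.toEquiv
    rw [card_car] at h1
    have := i.1.2
    omega

/-- The generic criterion. -/
theorem cross_of_resBdd (T₀ : Set RTerm) (hfin : T₀.Finite) (N : ℕ)
    (hres : ∀ (S : Type) [NonUnitalRing S], Sat S T₀ → ResBdd N S)
    (T : Set RTerm) (hT : ∀ (S : Type) [NonUnitalRing S], Sat S T → Sat S T₀) : IsCross T := by
  refine ⟨?_, ?_, ?_⟩
  · -- finite basis
    let X : Set RTerm → Set (Idx N) := fun F => {i | Sat (Car i.1) (T₀ ∪ F)}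
    let 𝒳 : Set (Set (Idx N)) := {Y | ∃ F : Set RTerm, F.Finite ∧ F ⊆ T ∧ Y = X F}
    have hne : 𝒳.Nonempty := ⟨X ∅, ∅, Set.finite_empty, Set.empty_subset _, rfl⟩
    obtain ⟨Y, ⟨F, hF, hFT, rfl⟩, hmin⟩ :=
      (wellFounded_lt (α := Set (Idx N))).has_min 𝒳 hne
    refine ⟨T₀ ∪ F, hfin.union hF, ?_⟩
    intro R _
    constructor
    · intro hR t ht
      have hmem : X (insert t F) ∈ 𝒳 :=
        ⟨insert t F, hF.insert t, Set.insert_subset ht hFT, rfl⟩
      have hsub : X (insert t F) ≤ X F := by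
        intro i hi
        exact Sat.mono hi (Set.union_subset_union_right _ (Set.subset_insert _ _))
      have heq : X (insert t F) = X F := by
        by_contra hne'
        exact hmin _ hmem (lt_of_le_of_ne hsub hne')
      have hR' : Sat R {t} := by
        apply sat_of_homs
        intro c hc
        obtain ⟨i, f, hf, hfc⟩ := (hres R (hR.mono Set.subset_union_left)).exists_hom c hc
        refine ⟨Car i.1, inferInstance, f, ?_, hfc⟩
        have h1 : i ∈ X F := Sat.of_surjective hR f hf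
        rw [← heq] at h1
        exact Sat.mono h1 (fun x hx => Or.inr (by rw [Set.mem_singleton_iff.1 hx]; exact Set.mem_insert _ _))
      exact hR' t rfl
    · intro hR
      exact sat_union.2 ⟨hT R hR, hR.mono hFT⟩
  · rintro R _ hR ⟨s, hs, hgen⟩
    exact finite_of_fg (hres R (hT R hR)) s hs hgen
  · obtain ⟨n, ⟨e⟩⟩ := Finite.exists_equiv_fin (Idx N)
    refine ⟨n, fun i => Car (e.symm i).1, fun i => inferInstance, ?_⟩
    intro R _ hR hcrit
    obtain ⟨i, ⟨f⟩⟩ := exists_idx hcrit.1 (card_le_of_critical (hres R (hT R hR)) hcrit)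
    obtain ⟨j, rfl⟩ := e.symm.surjective i
    exact ⟨j, ⟨f⟩⟩

end Pool.Agent.Helper446_ENG
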