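import Mathlib

/-! Nullstellensatz over `ℤ` (proof by helper828). -/

namespace Pool.Agent.Helper446_ENG

theorem exists_finite_field_point_jac_int : IsJacobsonRing ℤ := by
  rw [isJacobsonRing_iff_prime_eq]
  intro P hP
  by_cases h : P = ⊥
  · subst h
    rw [eq_bot_iff]
    intro x hx
    rw [Ideal.mem_jacobson_bot] at hx
    by_contra hne
    have hx0 : x ≠ 0 := fun h => hne (by rw [h]; exact Ideal.zero_mem _)
    have h1 := hx (3 * x)
    have h2 : 0 < x ^ 2 := by positivity
    rcases Int.isUnit_iff.1 h1 with h3 | h3 <;> nlinarith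
  · have := IsPrime.to_maximal_ideal h
    exact Ideal.jacobson_eq_self_of_isMaximal

theorem exists_finite_field_point_fin (K : Type) [Field K] [Module.Finite ℤ K] : Finite K := by
  obtain ⟨p, hp⟩ := CharP.exists K
  have hint : Algebra.IsIntegral ℤ K := inferInstance
  by_cases h0 : p = 0
  · exfalso
    subst h0
    have : CharZero K := CharP.charP_to_charZero K
    have hinj : Function.Injective (algebraMap ℤ K) := by
      rw [algebraMap_int_eq]
      exact RingHom.injective_int _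
    exact Int.not_isField (isField_of_isIntegral_of_isField hinj (Field.toIsField K))
  · refine Module.finite_of_fg_torsion K fun x => ?_
    refine ⟨⟨(p : ℤ), mem_nonZeroDivisors_of_ne_zero (by exact_mod_cast h0)⟩, ?_⟩
    show (p : ℤ) • x = 0
    rw [zsmul_eq_mul, Int.cast_natCast, CharP.cast_eq_zero, zero_mul]

theorem exists_finite_field_point (J : Ideal (MvPolynomial (Fin 2) ℤ))
    (h : ∀ n : ℕ, (MvPolynomial.X 1 - MvPolynomial.X 0) ^ n ∉ J) :
    ∃ (K : Type) (_ : Field K) (_ : Finite K) (ψ : MvPolynomial (Fin 2) ℤ →+* K),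
      (∀ f ∈ J, ψ f = 0) ∧ ψ (MvPolynomial.X 0) ≠ ψ (MvPolynomial.X 1) := by
  have := exists_finite_field_point_jac_int
  have hnot : (MvPolynomial.X 1 - MvPolynomial.X 0 : MvPolynomial (Fin 2) ℤ) ∉ J.jacobson := by
    rw [← Ideal.radical_eq_jacobson]
    rintro ⟨n, hn⟩
    exact h n hn
  rw [Ideal.jacobson, Ideal.mem_sInf] at hnot
  push Not at hnot
  obtain ⟨M, ⟨hJM, hM⟩, hx⟩ := hnot
  have := hM
  letI : Field (MvPolynomial (Fin 2) ℤ ⧸ M) := Ideal.Quotient.field M
  have hft : Algebra.FiniteType ℤ (MvPolynomial (Fin 2) ℤ ⧸ M) := inferInstance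
  have hfin : Module.Finite ℤ (MvPolynomial (Fin 2) ℤ ⧸ M) :=
    finite_of_finite_type_of_isJacobsonRing ℤ (MvPolynomial (Fin 2) ℤ ⧸ M)
  refine ⟨MvPolynomial (Fin 2) ℤ ⧸ M, inferInstance, exists_finite_field_point_fin _,
    Ideal.Quotient.mk M, fun f hf => Ideal.Quotient.eq_zero_iff_mem.2 (hJM hf), fun he => ?_⟩
  apply hx
  rw [← Ideal.Quotient.eq]
  exact he.symm

end Pool.Agent.Helper446_ENG
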