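import Pool.Agent.Helper446_ENG.Words
import Pool.Agent.Helper446_ENG.Null
import Pool.Agent.Helper446_ENG.Generic

/-! Either the variety satisfies an identity `[x,_n y] = g(x,y)` with every monomial of `g` of degree at least two
in `x`, or it contains a non-Engel ring of upper triangular `2 × 2` matrices over a finite field. -/

namespace Pool.Agent.Helper446_ENG

open MvPolynomial

/-- the free ring on two letters -/
abbrev FA : Type := FreeAlgebra ℤ (Fin 2)

/-- the identities in two variables -/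
def Id2 (T : Set RTerm) : Set FA :=
  {w | ∀ (R : Type) [NonUnitalRing R], Sat R T → ∀ x y : R, ev x y w = 0}

variable {T : Set RTerm}

lemma id2_add {u w : FA} (hu : u ∈ Id2 T) (hw : w ∈ Id2 T) : u + w ∈ Id2 T := by
  intro R _ hR x y
  rw [map_add, hu R hR x y, hw R hR x y, add_zero]

lemma id2_sub {u w : FA} (hu : u ∈ Id2 T) (hw : w ∈ Id2 T) : u - w ∈ Id2 T := by
  intro R _ hR x y
  rw [map_sub, hu R hR x y, hw R hR x y, sub_zero]

lemma id2_mul_left {w : FA} (u : FA) (hw : w ∈ Id2 T) : u * w ∈ Id2 T := by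
  intro R _ hR x y
  rw [map_mul, hw R hR x y, mul_zero]

lemma id2_mul_right {w : FA} (u : FA) (hw : w ∈ Id2 T) : w * u ∈ Id2 T := by
  intro R _ hR x y
  rw [map_mul, hw R hR x y, zero_mul]

lemma ev_x {R : Type*} [NonUnitalRing R] (x y : R) :
    ev x y (FreeAlgebra.ι ℤ 0) = (x : Unitization ℤ R) := by
  rw [ev, FreeAlgebra.lift_ι_apply]
  rfl

lemma ev_y {R : Type*} [NonUnitalRing R] (x y : R) :
    ev x y (FreeAlgebra.ι ℤ 1) = (y : Unitization ℤ R) := by
  rw [ev, FreeAlgebra.lift_ι_apply]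
  rfl

lemma algHom_eng {A B : Type*} [Ring A] [Ring B] (f : A →+* B) (x y : A) (n : ℕ) :
    f (eng x y n) = eng (f x) (f y) n := by
  induction n with
  | zero => rfl
  | succ n ih => simp [eng, ih]

lemma ev_eng {R : Type*} [NonUnitalRing R] (x y : R) (n : ℕ) :
    ev x y (eng (FreeAlgebra.ι ℤ 0) (FreeAlgebra.ι ℤ 1) n) = ((eng x y n : R) : Unitization ℤ R) := by
  induction n with
  | zero => simp [eng, ev_x]
  | succ n ih => simp [eng, ih, ev_y]

lemma Phi_eng (n : ℕ) :
    Phi (eng (FreeAlgebra.ι ℤ 0) (FreeAlgebra.ι ℤ 1) n) = !![0, (X 1 - X 0) ^ n; 0, 0] := by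
  induction n with
  | zero => simp [eng, Phi_x_J3]
  | succ n ih =>
    simp only [eng, map_sub, map_mul, ih, Phi_y_J3, Matrix.mul_fin_two]
    apply Matrix.ext
    intro i j
    fin_cases i <;> fin_cases j <;> simp
    ring

/-- the ideal of all `h` with `h e₁₂ ∈ Phi (Id2 T)` -/
def idealJ (T : Set RTerm) : Ideal (MvPolynomial (Fin 2) ℤ) where
  carrier := {h | ∃ w ∈ Id2 T, Phi w = !![0, h; 0, 0]}
  zero_mem' := ⟨0, fun R _ _ x y => map_zero _, by
    rw [map_zero]
    ext i j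
    fin_cases i <;> fin_cases j <;> simp⟩
  add_mem' := by
    rintro a b ⟨u, hu, hua⟩ ⟨w, hw, hwb⟩
    refine ⟨u + w, id2_add hu hw, ?_⟩
    rw [map_add, hua, hwb]
    ext i j
    fin_cases i <;> fin_cases j <;> simp
  smul_mem' := by
    intro c h hh
    revert h hh
    induction c using MvPolynomial.induction_on with
    | C a =>
      intro h hh
      obtain ⟨w, hw, hwh⟩ := hh
      refine ⟨(algebraMap ℤ FA a) * w, id2_mul_left _ hw, ?_⟩
      rw [map_mul, hwh, AlgHom.commutes, Matrix.algebraMap_eq_diagonal]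
      ext i j
      fin_cases i <;> fin_cases j <;> simp [Matrix.mul_apply, Fin.sum_univ_two]
    | add p q hp hq =>
      intro h hh
      obtain ⟨u, hu, hua⟩ := hp hh
      obtain ⟨w, hw, hwb⟩ := hq hh
      refine ⟨u + w, id2_add hu hw, ?_⟩
      rw [map_add, hua, hwb]
      ext i j
      fin_cases i <;> fin_cases j <;> simp [add_mul]
    | mul_X p i hp =>
      intro h hh
      have hX : (X i : MvPolynomial (Fin 2) ℤ) • h ∈ {h : MvPolynomial (Fin 2) ℤ | ∃ w ∈ Id2 T, Phi w = !![0, h; 0, 0]} := by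
        obtain ⟨w, hw, hwh⟩ := hh
        fin_cases i
        · refine ⟨FreeAlgebra.ι ℤ 1 * w, id2_mul_left _ hw, ?_⟩
          rw [map_mul, hwh, Phi_y_J3, Matrix.mul_fin_two]
          simp
        · refine ⟨w * FreeAlgebra.ι ℤ 1, id2_mul_right _ hw, ?_⟩
          rw [map_mul, hwh, Phi_y_J3, Matrix.mul_fin_two]
          simp [mul_comm]
      have := hp hX
      rwa [smul_eq_mul, smul_eq_mul, ← mul_assoc] at this

lemma mem_idealJ {h : MvPolynomial (Fin 2) ℤ} :
    h ∈ idealJ T ↔ ∃ w ∈ Id2 T, Phi w = !![0, h; 0, 0] := Iff.rfl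

/-- `x ↦ 0`, `y ↦ y` -/
noncomputable def eps : FA →ₐ[ℤ] FA :=
  FreeAlgebra.lift ℤ ![0, FreeAlgebra.ι ℤ 1]

lemma eps_x : eps (FreeAlgebra.ι ℤ 0) = 0 := by
  rw [eps, FreeAlgebra.lift_ι_apply]; rfl

lemma eps_y : eps (FreeAlgebra.ι ℤ 1) = FreeAlgebra.ι ℤ 1 := by
  rw [eps, FreeAlgebra.lift_ι_apply]; rfl

lemma ev_eps {R : Type*} [NonUnitalRing R] (x y : R) (w : FA) : ev x y (eps w) = ev 0 y w := by
  have : (ev x y).comp eps = ev 0 y := by
    apply FreeAlgebra.hom_ext
    funext i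
    fin_cases i
    · simp [eps_x, ev_x]
    · simp [eps_y, ev_y]
  rw [← this]
  rfl

lemma id2_eps {w : FA} (hw : w ∈ Id2 T) : eps w ∈ Id2 T := by
  intro R _ hR x y
  rw [ev_eps]
  exact hw R hR 0 y

lemma Phi_upper (w : FA) : Phi w 1 0 = 0 ∧ Phi (eps w) = !![Phi w 0 0, 0; 0, Phi w 1 1] := by
  induction w using FreeAlgebra.induction with
  | grade0 a =>
    simp only [AlgHom.commutes, Matrix.algebraMap_eq_diagonal]
    refine ⟨by simp, ?_⟩
    ext i j
    fin_cases i <;> fin_cases j <;> simp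
  | grade1 i =>
    fin_cases i
    · simp only [Fin.zero_eta, eps_x, Phi_x_J3, map_zero]
      refine ⟨by simp, ?_⟩
      ext i j
      fin_cases i <;> fin_cases j <;> simp
    · simp only [Fin.mk_one, eps_y, Phi_y_J3]
      refine ⟨by simp, ?_⟩
      ext i j
      fin_cases i <;> fin_cases j <;> simp
  | mul a b ha hb =>
    rw [map_mul, map_mul, map_mul, ha.2, hb.2]
    refine ⟨?_, ?_⟩
    · rw [Matrix.mul_apply, Fin.sum_univ_two, ha.1, hb.1]
      ring
    · ext i j
      fin_cases i <;> fin_cases j <;> simp [Matrix.mul_apply, Fin.sum_univ_two, ha.1, hb.1]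
  | add a b ha hb =>
    rw [map_add, map_add, map_add, ha.2, hb.2]
    refine ⟨?_, ?_⟩
    · rw [Matrix.add_apply, ha.1, hb.1, add_zero]
    · ext i j
      fin_cases i <;> fin_cases j <;> simp

/-- the entries of `Phi w`, `w ∈ Id2 T`, lie in `idealJ T` -/
lemma Phi_entry_mem {w : FA} (hw : w ∈ Id2 T) (i j : Fin 2) : Phi w i j ∈ idealJ T := by
  have h10 := (Phi_upper w).1
  fin_cases i <;> fin_cases j
  · refine ⟨w * FreeAlgebra.ι ℤ 0, id2_mul_right _ hw, ?_⟩
    rw [map_mul, Phi_x_J3]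
    ext i j
    fin_cases i <;> fin_cases j <;> simp [Matrix.mul_apply, Fin.sum_univ_two, h10]
  · refine ⟨w - eps w, id2_sub hw (id2_eps hw), ?_⟩
    rw [map_sub, (Phi_upper w).2]
    ext i j
    fin_cases i <;> fin_cases j <;> simp [h10]
  · simp only [Fin.mk_one, Fin.zero_eta, h10]
    exact Ideal.zero_mem _
  · refine ⟨FreeAlgebra.ι ℤ 0 * w, id2_mul_left _ hw, ?_⟩
    rw [map_mul, Phi_x_J3]
    ext i j
    fin_cases i <;> fin_cases j <;> simp [Matrix.mul_apply, Fin.sum_univ_two, h10]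

/-- the identity `(E)` -/
lemma exists_g_of_mem (n : ℕ) (h : (X 1 - X 0) ^ n ∈ idealJ T) :
    ∃ g ∈ S2, ∀ (R : Type) [NonUnitalRing R], Sat R T → ∀ x y : R,
      ev x y g = ((eng x y n : R) : Unitization ℤ R) := by
  obtain ⟨w, hw, hPw⟩ := h
  refine ⟨eng (FreeAlgebra.ι ℤ 0) (FreeAlgebra.ι ℤ 1) n - w, ?_, ?_⟩
  · apply mem_S2_of_Phi_eq_zero
    rw [map_sub, Phi_eng, hPw, sub_self]
  · intro R _ hR x y
    rw [map_sub, ev_eng, hw R hR x y, sub_zero]

/-- a term evaluated at elements of the free nonunital ring, whose image under a representation killing `Id2 T` -/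
lemma ev_closure {R : Type} [NonUnitalRing R] (x y : R) (w : FA)
    (hw : w ∈ NonUnitalSubring.closure ({FreeAlgebra.ι ℤ 0, FreeAlgebra.ι ℤ 1} : Set FA)) :
    ∃ r : R, ev x y w = (r : Unitization ℤ R) := by
  induction hw using NonUnitalSubring.closure_induction with
  | mem w hw =>
    rcases hw with rfl | rfl
    · exact ⟨x, ev_x x y⟩
    · exact ⟨y, ev_y x y⟩
  | zero => exact ⟨0, by simp⟩
  | add a b _ _ ha hb =>
    obtain ⟨r, hr⟩ := ha
    obtain ⟨s, hs⟩ := hb
    exact ⟨r + s, by rw [map_add, hr, hs, Unitization.inr_add]⟩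
  | neg a _ ha =>
    obtain ⟨r, hr⟩ := ha
    exact ⟨-r, by rw [map_neg, hr, Unitization.inr_neg]⟩
  | mul a b _ _ ha hb =>
    obtain ⟨r, hr⟩ := ha
    obtain ⟨s, hs⟩ := hb
    exact ⟨r * s, by rw [map_mul, hr, hs, Unitization.inr_mul]⟩

/-- forget the unit -/
def rh {A B : Type*} [Ring A] [Ring B] [Algebra ℤ A] [Algebra ℤ B] (f : A →ₐ[ℤ] B) : A →ₙ+* B where
  toFun := f
  map_zero' := map_zero f
  map_add' := map_add f
  map_mul' := map_mul f

/-- the embedding of `R` in its unitization -/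
def inrHom (R : Type*) [NonUnitalRing R] : R →ₙ+* Unitization ℤ R where
  toFun r := (r : Unitization ℤ R)
  map_zero' := Unitization.inr_zero _
  map_add' := Unitization.inr_add _
  map_mul' := Unitization.inr_mul _

lemma eval_mem_Id2 (t : RTerm) (ht : t ∈ T) (w : ℕ → FA)
    (hw : ∀ i, w i ∈ NonUnitalSubring.closure ({FreeAlgebra.ι ℤ 0, FreeAlgebra.ι ℤ 1} : Set FA)) :
    t.eval w ∈ Id2 T := by
  intro R _ hR x y
  choose r hr using fun i => ev_closure x y (w i) (hw i)
  have h1 := map_eval (R := FA) (S := Unitization ℤ R) (rh (ev x y)) w t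
  have h2 := map_eval (S := Unitization ℤ R) (inrHom R) r t
  rw [hR t ht r, map_zero] at h2
  have h3 : (fun i => rh (ev x y) (w i)) =
      fun i => inrHom R (r i) := by
    funext i
    exact hr i
  rw [h3, ← h2] at h1
  exact h1

end Pool.Agent.Helper446_ENG
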