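import Pool.Agent.Helper446_ENG.CaseI
import Pool.Agent.Helper446_ENG.Basis

/-! A variety with no identity `[x,_n y] = g(x,y)` (every monomial of `g` of degree `≥ 2` in `x`) contains a
non-Engel ring of upper triangular matrices over a finite field. -/

namespace Pool.Agent.Helper446_ENG

open MvPolynomial

section Matrices

variable {K : Type} [Field K]

/-- upper triangular -/
def Upp (M : Matrix (Fin 2) (Fin 2) K) : Prop := M 1 0 = 0

/-- strictly upper triangular -/
def Strict (M : Matrix (Fin 2) (Fin 2) K) : Prop := M 1 0 = 0 ∧ M 0 0 = 0 ∧ M 1 1 = 0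

lemma Strict.mul_eq_zero {M N : Matrix (Fin 2) (Fin 2) K} (hM : Strict M) (hN : Strict N) :
    M * N = 0 := by
  obtain ⟨a, b, c⟩ := hM
  obtain ⟨a', b', c'⟩ := hN
  ext i j
  fin_cases i <;> fin_cases j <;> simp [Matrix.mul_apply, Fin.sum_univ_two, a, b, c, a', b', c']

lemma Strict.mul_upp {M N : Matrix (Fin 2) (Fin 2) K} (hM : Strict M) (hN : Upp N) :
    Strict (M * N) := by
  obtain ⟨a, b, c⟩ := hM
  have hN' : N 1 0 = 0 := hN
  refine ⟨?_, ?_, ?_⟩ <;> simp [Matrix.mul_apply, Fin.sum_univ_two, a, b, c, hN']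

lemma upp_pw {M : Matrix (Fin 2) (Fin 2) K} (hM : Upp M) (n : ℕ) :
    pw M n 1 0 = 0 ∧ pw M n 0 0 = (M 0 0) ^ (n + 1) ∧ pw M n 1 1 = (M 1 1) ^ (n + 1) := by
  have hM' : M 1 0 = 0 := hM
  induction n with
  | zero => simp [pw, hM']
  | succ n ih =>
    obtain ⟨h1, h2, h3⟩ := ih
    refine ⟨?_, ?_, ?_⟩ <;> simp [pw, Matrix.mul_apply, Fin.sum_univ_two, h1, h2, h3, hM', pow_succ]

lemma strict_defect_one [Fintype K] {M : Matrix (Fin 2) (Fin 2) K} (hM : Upp M) :
    Strict (pw M (Fintype.card K - 1) - M) := by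
  have hM' : M 1 0 = 0 := hM
  have hc : Fintype.card K - 1 + 1 = Fintype.card K := Nat.sub_add_cancel Fintype.card_pos
  obtain ⟨h1, h2, h3⟩ := upp_pw hM (Fintype.card K - 1)
  refine ⟨?_, ?_, ?_⟩
  · rw [Matrix.sub_apply, h1, hM', sub_zero]
  · rw [Matrix.sub_apply, h2, hc, FiniteField.pow_card, sub_self]
  · rw [Matrix.sub_apply, h3, hc, FiniteField.pow_card, sub_self]

lemma strict_defect_two {M N : Matrix (Fin 2) (Fin 2) K} (hM : Upp M) (hN : Upp N) :
    Strict (M * N - N * M) := by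
  have hM' : M 1 0 = 0 := hM
  have hN' : N 1 0 = 0 := hN
  refine ⟨?_, ?_, ?_⟩ <;> simp [Matrix.mul_apply, Fin.sum_univ_two, hM', hN'] <;> ring

/-- rings of upper triangular matrices satisfy the basis -/
lemma sat_basis_of_upp [Fintype K] (p : ℕ) [CharP K p] (B : NonUnitalSubring (Matrix (Fin 2) (Fin 2) K))
    (hB : ∀ M ∈ B, Upp M) : Sat B (basis p (Fintype.card K)) := by
  have key : ∀ t ∈ basis p (Fintype.card K), ∀ v : ℕ → Matrix (Fin 2) (Fin 2) K, (∀ i, Upp (v i)) →
      t.eval v = 0 := by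
    intro t ht v hv
    have h1 : ∀ i, Strict ((d1 (Fintype.card K) i).eval v) := by
      intro i
      rw [eval_d1]
      exact strict_defect_one (hv i)
    have h2 : ∀ i j, Strict ((d2 i j).eval v) := by
      intro i j
      rw [eval_d2]
      exact strict_defect_two (hv i) (hv j)
    rcases ht with rfl | ⟨u, hu, w, hw, ht⟩
    · rw [eval_tns]
      ext i j
      rw [Matrix.smul_apply, nsmul_eq_mul, CharP.cast_eq_zero, zero_mul]
      rfl
    · have hu' : Strict (u.eval v) := by
        rcases hu with rfl | rfl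
        · exact h1 _
        · exact h2 _ _
      have hw' : Strict (w.eval v) := by
        rcases hw with rfl | rfl
        · exact h1 _
        · exact h2 _ _
      rcases ht with rfl | rfl
      · exact hu'.mul_eq_zero hw'
      · exact (hu'.mul_upp (hv 4)).mul_eq_zero hw'
  intro t ht v
  apply Subtype.ext
  exact (map_eval (NonUnitalSubringClass.subtype B) v t).trans
    (key t ht _ (fun i => hB _ (v i).2))

end Matrices

/-- a ring homomorphism as a nonunital one -/
def rhr {A B : Type*} [Ring A] [Ring B] (f : A →+* B) : A →ₙ+* B where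
  toFun := f
  map_zero' := map_zero f
  map_add' := map_add f
  map_mul' := map_mul f

theorem dichotomy (T : Set RTerm) :
    (∃ n : ℕ, 1 ≤ n ∧ ∃ g ∈ S2, ∀ (R : Type) [NonUnitalRing R], Sat R T → ∀ x y : R,
      ev x y g = ((eng x y n : R) : Unitization ℤ R)) ∨
    ∃ (K : Type) (_ : Field K) (_ : Finite K) (B : NonUnitalSubring (Matrix (Fin 2) (Fin 2) K)),
      (∀ M ∈ B, M 1 0 = 0) ∧ (∃ p f : ℕ, p.Prime ∧ 1 ≤ f ∧ Sat B (basis p (p ^ f))) ∧
      Sat B T ∧ ∃ x y : B, ∀ n, eng x y n ≠ 0 := by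
  by_cases hJ : ∃ n : ℕ, (X 1 - X 0) ^ n ∈ idealJ T
  · obtain ⟨n, hn⟩ := hJ
    exact Or.inl ⟨n + 1, by omega, exists_g_of_mem (n + 1) (by
      rw [pow_succ]
      exact Ideal.mul_mem_right _ _ hn)⟩
  · right
    push Not at hJ
    obtain ⟨K, _, _, ψ, hψ, hne⟩ := exists_finite_field_point (idealJ T) hJ
    have := Fintype.ofFinite K
    obtain ⟨p, hp⟩ := CharP.exists K
    obtain ⟨f, hpp, hcard⟩ := FiniteField.card K p
    let φ : FA →+* Matrix (Fin 2) (Fin 2) K := (ψ.mapMatrix).comp (Phi : FA →ₐ[ℤ] _).toRingHom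
    have hφ : ∀ w : FA, ∀ i j, φ w i j = ψ (Phi w i j) := fun w i j => rfl
    let x : FA := FreeAlgebra.ι ℤ 0
    let y : FA := FreeAlgebra.ι ℤ 1
    let B : NonUnitalSubring (Matrix (Fin 2) (Fin 2) K) := NonUnitalSubring.closure {φ x, φ y}
    have hlift : ∀ M ∈ B, ∃ w ∈ NonUnitalSubring.closure ({x, y} : Set FA), φ w = M := by
      intro M hM
      induction hM using NonUnitalSubring.closure_induction with
      | mem M hM =>
        rcases hM with rfl | rfl
        · exact ⟨x, NonUnitalSubring.subset_closure (Or.inl rfl), rfl⟩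
        · exact ⟨y, NonUnitalSubring.subset_closure (Or.inr rfl), rfl⟩
      | zero => exact ⟨0, zero_mem _, map_zero _⟩
      | add a b _ _ ha hb =>
        obtain ⟨u, hu, rfl⟩ := ha
        obtain ⟨w, hw, rfl⟩ := hb
        exact ⟨u + w, add_mem hu hw, map_add _ _ _⟩
      | neg a _ ha =>
        obtain ⟨u, hu, rfl⟩ := ha
        exact ⟨-u, neg_mem hu, map_neg _ _⟩
      | mul a b _ _ ha hb =>
        obtain ⟨u, hu, rfl⟩ := ha
        obtain ⟨w, hw, rfl⟩ := hb
        exact ⟨u * w, mul_mem hu hw, map_mul _ _ _⟩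
    have hupp : ∀ M ∈ B, Upp M := by
      intro M hM
      obtain ⟨w, -, rfl⟩ := hlift M hM
      show φ w 1 0 = 0
      rw [hφ, (Phi_upper w).1, map_zero]
    refine ⟨K, inferInstance, inferInstance, B, hupp, ⟨p, f, hpp, f.2, ?_⟩, ?_, ⟨φ x, ?_⟩,
      ⟨φ y, ?_⟩, ?_⟩
    · rw [← hcard]
      exact sat_basis_of_upp p B hupp
    · intro t ht v
      choose w hw hwv using fun i => hlift (v i) (v i).2
      apply Subtype.ext
      have h1 := map_eval (NonUnitalSubringClass.subtype B) v t
      have h2 := map_eval (R := FA) (S := Matrix (Fin 2) (Fin 2) K) (rhr φ) w t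
      have h3 : (fun i => (NonUnitalSubringClass.subtype B) (v i)) = fun i => rhr φ (w i) := by
        funext i
        exact (hwv i).symm
      rw [h3, ← h2] at h1
      refine h1.trans ?_
      have hId := eval_mem_Id2 t ht w hw
      ext i j
      show φ (t.eval w) i j = 0
      rw [hφ]
      exact hψ _ (Phi_entry_mem hId i j)
    · exact NonUnitalSubring.subset_closure (Or.inl rfl)
    · exact NonUnitalSubring.subset_closure (Or.inr rfl)
    · intro n hn
      have h1 := map_eng (NonUnitalSubringClass.subtype B)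
        ⟨φ x, NonUnitalSubring.subset_closure (Or.inl rfl)⟩
        ⟨φ y, NonUnitalSubring.subset_closure (Or.inr rfl)⟩ n
      rw [hn, map_zero] at h1
      have h2 : eng (φ x) (φ y) n = 0 := h1.symm
      rw [← algHom_eng φ] at h2
      have h3 : φ (eng x y n) 0 1 = 0 := by rw [h2]; rfl
      rw [hφ, Phi_eng] at h3
      have h4 : (ψ (X 1) - ψ (X 0)) ^ n = 0 := by
        simpa using h3
      have h5 : ψ (X 1) - ψ (X 0) ≠ 0 := fun h => hne (sub_eq_zero.1 h).symm
      exact pow_ne_zero n h5 h4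

end Pool.Agent.Helper446_ENG
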