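import Mathlib

/-! Levitzki's lemma for prime nonunital rings (proof by helper209). -/

namespace Pool.Agent.Helper446_ENG

theorem levitzki_key {A : Type*} [Ring A] (a u s : A) (m : ℕ) (hau : a * u ^ (m + 2) = 0)
    (v : A) (hv : v = u ^ (m + 1) * s * a) (hv' : a * v ^ (m + 2) = 0)
    (huv : a * (u + v) ^ (m + 2) = 0) :
    (a * u ^ (m + 1) * s) ^ (m + 1) * (a * u ^ (m + 1)) = 0 := by
  have hz : ∀ i, 1 ≤ i → a * u ^ i * v = 0 := by
    intro i hi
    obtain ⟨j, rfl⟩ := Nat.exists_eq_add_of_le' hi
    have : a * u ^ (j + 1) * v = a * u ^ (m + 2) * (u ^ j * s * a) := by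
      rw [hv]
      have e : u ^ (j + 1) * u ^ (m + 1) = u ^ (m + 2) * u ^ j := by
        rw [← pow_add, ← pow_add]; congr 1; ring
      calc a * u ^ (j + 1) * (u ^ (m + 1) * s * a)
          = a * (u ^ (j + 1) * u ^ (m + 1)) * (s * a) := by noncomm_ring
        _ = a * (u ^ (m + 2) * u ^ j) * (s * a) := by rw [e]
        _ = _ := by simp only [mul_assoc]
    rw [this, hau, zero_mul]
  have hz2 : ∀ l i, 1 ≤ i → a * v ^ l * u ^ i * v = 0 := by
    intro l i hi
    rcases l with _ | l
    · rw [pow_zero, mul_one]; exact hz i hi
    · have h1 : v * u ^ i * v = 0 := by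
        have : v * u ^ i * v = u ^ (m + 1) * s * (a * u ^ i * v) := by
          calc v * u ^ i * v = (u ^ (m + 1) * s * a) * u ^ i * v := by rw [← hv]
            _ = _ := by simp only [mul_assoc]
        rw [this, hz i hi, mul_zero]
      rw [pow_succ]
      have : a * (v ^ l * v) * u ^ i * v = a * v ^ l * (v * u ^ i * v) := by
        simp only [mul_assoc]
      rw [this, h1, mul_zero]
  have hexp : ∀ j, a * (u + v) ^ j = ∑ l ∈ Finset.range (j + 1), a * v ^ l * u ^ (j - l) := by
    intro j
    induction j with
    | zero => simp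
    | succ j ih =>
      rw [pow_succ, ← mul_assoc, ih, Finset.sum_mul, Finset.sum_range_succ _ (j + 1)]
      have h1 : ∀ l ∈ Finset.range (j + 1), a * v ^ l * u ^ (j - l) * (u + v) =
          a * v ^ l * u ^ (j + 1 - l) + a * v ^ l * u ^ (j - l) * v := by
        intro l hl
        have hl' : l ≤ j := Nat.lt_succ_iff.1 (Finset.mem_range.1 hl)
        rw [mul_add, mul_assoc (a * v ^ l) (u ^ (j - l)) u, ← pow_succ]
        congr 3
        omega
      rw [Finset.sum_congr rfl h1, Finset.sum_add_distrib]
      congr 1
      rw [Finset.sum_range_succ, Finset.sum_eq_zero, zero_add]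
      · simp [pow_succ, mul_assoc]
      · intro l hl
        have := Finset.mem_range.1 hl
        exact hz2 l (j - l) (by omega)
  have hc : ∀ l, a * v ^ l = (a * u ^ (m + 1) * s) ^ l * a := by
    intro l
    induction l with
    | zero => simp
    | succ l ih =>
      calc a * v ^ (l + 1) = a * v ^ l * v := by rw [pow_succ, mul_assoc]
        _ = (a * u ^ (m + 1) * s) ^ l * a * v := by rw [ih]
        _ = (a * u ^ (m + 1) * s) ^ l * a * (u ^ (m + 1) * s * a) := by rw [← hv]
        _ = (a * u ^ (m + 1) * s) ^ l * (a * u ^ (m + 1) * s) * a := by simp only [mul_assoc]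
        _ = _ := by rw [← pow_succ]
  set c := a * u ^ (m + 1) * s with hcdef
  have h1 := hexp (m + 2)
  rw [huv] at h1
  have h2 : c ^ m * ∑ l ∈ Finset.range (m + 2 + 1), a * v ^ l * u ^ (m + 2 - l) =
      c ^ (m + 1) * (a * u ^ (m + 1)) := by
    rw [Finset.mul_sum, Finset.sum_eq_single 1]
    · rw [hc, pow_one]
      have : m + 2 - 1 = m + 1 := by omega
      rw [this]
      calc c ^ m * (c * a * u ^ (m + 1)) = c ^ m * c * (a * u ^ (m + 1)) := by
            simp only [mul_assoc]
        _ = _ := by rw [← pow_succ]
    · intro l hl hl1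
      rcases Nat.lt_or_gt_of_ne hl1 with h | h
      · have : l = 0 := by omega
        subst this
        rw [pow_zero, mul_one, Nat.sub_zero, hau, mul_zero]
      · obtain ⟨i, rfl⟩ := Nat.exists_eq_add_of_le' (show 2 ≤ l from h)
        have h3 : c ^ (m + 2) * a = 0 := by rw [← hc]; exact hv'
        have h4 : c ^ m * (a * v ^ (i + 2) * u ^ (m + 2 - (i + 2))) =
            c ^ i * (c ^ (m + 2) * a) * u ^ (m + 2 - (i + 2)) := by
          rw [hc, ← mul_assoc, ← mul_assoc, ← mul_assoc, ← pow_add, ← pow_add]
          congr 3
          ring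
        rw [h4, h3, mul_zero, zero_mul]
    · intro h
      exact (h (Finset.mem_range.2 (by omega))).elim
  rw [← h2, ← h1, mul_zero]

theorem levitzki_pow {A : Type*} [Ring A] (z u : A) (j : ℕ) : z * u ^ j * u = z * u ^ (j + 1) := by
  rw [pow_succ, mul_assoc]

theorem levitzki_swap {A : Type*} [Ring A] (x y : A) (j : ℕ) :
    x * (y * x) ^ j = (x * y) ^ j * x := by
  induction j with
  | zero => simp
  | succ j ihj =>
    calc x * (y * x) ^ (j + 1) = x * (y * x) ^ j * (y * x) := by rw [pow_succ, mul_assoc]
      _ = (x * y) ^ j * x * (y * x) := by rw [ihj]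
      _ = (x * y) ^ j * (x * y) * x := by simp only [mul_assoc]
      _ = _ := by rw [← pow_succ]

theorem levitzki {R : Type*} [NonUnitalRing R]
    (hprime : ∀ a b : R, (∀ r : R, a * r * b = 0) → a = 0 ∨ b = 0)
    (k : ℕ) (a : R) (h : ∀ r : R, (fun z => z * (r * a))^[k] a = 0) : a = 0 := by
  have hinj : Function.Injective (Unitization.inr : R → Unitization ℤ R) :=
    Unitization.inr_injective
  have hit : ∀ (j : ℕ) (r b z : R), (Unitization.inr ((fun z => z * (r * b))^[j] z) :
      Unitization ℤ R) = Unitization.inr z * (Unitization.inr r * Unitization.inr b) ^ j := by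
    intro j r b z
    induction j with
    | zero => simp
    | succ j ih =>
      have e1 : (fun z => z * (r * b))^[j + 1] z = (fun z => z * (r * b))^[j] z * (r * b) :=
        Function.iterate_succ_apply' _ _ _
      rw [e1, Unitization.inr_mul, ih, Unitization.inr_mul]
      exact levitzki_pow (A := Unitization ℤ R) (Unitization.inr z)
        (Unitization.inr r * Unitization.inr b) j
  induction k generalizing a with
  | zero => exact h 0
  | succ k ih =>
    rcases k with _ | m
    · rcases hprime a a (fun r => by
        have := h r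
        simpa [mul_assoc] using this) with h1 | h1 <;> exact h1
    · apply ih a
      intro r
      -- `b = a u^(m+1)`
      apply ih
      intro s
      apply hinj
      rw [hit, hit, Unitization.inr_zero]
      set A : Unitization ℤ R := Unitization.inr a with hA
      set U : Unitization ℤ R := Unitization.inr r * Unitization.inr a with hU
      have hb : (Unitization.inr a : Unitization ℤ R) *
          (Unitization.inr r * Unitization.inr a) ^ (m + 1) = A * U ^ (m + 1) := rfl
      have hw : ∀ j : ℕ, ∃ w : R, (Unitization.inr w : Unitization ℤ R) =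
          U ^ j * Unitization.inr s := by
        intro j
        induction j with
        | zero => exact ⟨s, by simp⟩
        | succ j ihj =>
          obtain ⟨w, hw⟩ := ihj
          refine ⟨r * a * w, ?_⟩
          rw [Unitization.inr_mul, Unitization.inr_mul, hw, pow_succ', mul_assoc]
      obtain ⟨w, hw⟩ := hw (m + 1)
      have h0 : ∀ r' : R, A * (Unitization.inr r' * A) ^ (m + 2) = 0 := by
        intro r'
        have := congrArg (Unitization.inr : R → Unitization ℤ R) (h r')
        rw [hit, Unitization.inr_zero] at this
        exact this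
      have key := levitzki_key A U (Unitization.inr s) m (h0 r) (Unitization.inr w * A)
        (by rw [hw]) (h0 w) (by
          have := h0 (r + w)
          rw [Unitization.inr_add, add_mul] at this
          exact this)
      exact (levitzki_swap (A * U ^ (m + 1)) (Unitization.inr s) (m + 1)).trans key

end Pool.Agent.Helper446_ENG
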