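import Pool.Agent.Helper446_ENG.Dom
import Pool.Agent.Helper446_ENG.Lev
import Pool.Agent.Helper446_ENG.CaseI
import Pool.Agent.Helper446_ENG.Basis

/-! A variety with an identity `[x,_n y] = g(x,y)`, every monomial of `g` of degree `≥ 2` in `x`, is Engel. -/

namespace Pool.Agent.Helper446_ENG

/-- the unitization, with its ring structure -/
def UZ (R : Type) [NonUnitalRing R] : Type := Unitization ℤ R

noncomputable instance (R : Type) [NonUnitalRing R] : Ring (UZ R) :=
  inferInstanceAs (Ring (Unitization ℤ R))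

/-- the embedding in the unitization -/
def em {R : Type} [NonUnitalRing R] : R →ₙ+* UZ R where
  toFun r := (r : Unitization ℤ R)
  map_zero' := Unitization.inr_zero _
  map_add' := Unitization.inr_add _
  map_mul' := Unitization.inr_mul _

lemma em_injective {R : Type} [NonUnitalRing R] : Function.Injective (em (R := R)) :=
  fun _ _ h => Unitization.inr_injective (R := ℤ) h

lemma hom_S2_eq_zero {g : FreeAlgebra ℤ (Fin 2)} (hg : g ∈ S2) {S : Type} [Ring S] [Algebra ℤ S]
    (φ : FreeAlgebra ℤ (Fin 2) →ₐ[ℤ] S)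
    (h : ∀ j : ℕ, φ (FreeAlgebra.ι ℤ 0) * φ (FreeAlgebra.ι ℤ 1) ^ j * φ (FreeAlgebra.ι ℤ 0) = 0) :
    φ g = 0 := by
  induction hg using Submodule.span_induction with
  | mem w hw =>
    obtain ⟨L, k, hL, rfl⟩ := hw
    match L, hL with
    | i :: j :: L', hL =>
      rw [alg446]
      unfold wd
      rw [List.map_cons, List.map_cons, List.prod_cons, List.prod_cons]
      have h1 : φ (FreeAlgebra.ι ℤ 1) ^ i * φ (FreeAlgebra.ι ℤ 0) *
          (φ (FreeAlgebra.ι ℤ 1) ^ j * φ (FreeAlgebra.ι ℤ 0)) = 0 := by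
        rw [mul_assoc, ← mul_assoc (φ (FreeAlgebra.ι ℤ 0)), h j, mul_zero]
      rw [← mul_assoc (φ (FreeAlgebra.ι ℤ 1) ^ i * φ (FreeAlgebra.ι ℤ 0)), h1, zero_mul, zero_mul]
  | zero => rw [map_zero]
  | add u v _ _ hu hv => rw [map_add, hu, hv, add_zero]
  | smul a u _ hu => exact (map_zsmul φ a u).trans (by rw [hu, smul_zero])

/-- the elements of `S2` vanish at `(x, y)` if `x y^j x = 0` for all `j` -/
lemma ev_S2_eq_zero {g : FreeAlgebra ℤ (Fin 2)} (hg : g ∈ S2) {R : Type} [NonUnitalRing R] (x y : R)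
    (h : ∀ j : ℕ, em x * (em y) ^ j * em x = 0) : ev x y g = 0 := by
  refine hom_S2_eq_zero (S := Unitization ℤ R) hg (ev x y) (fun j => ?_)
  rw [ev_x, ev_y]
  exact h j

section

variable {R : Type} [NonUnitalRing R]

lemma eng_add' (a b : R) (N n : ℕ) : eng (eng a b N) b n = eng a b (N + n) := by
  induction n with
  | zero => rfl
  | succ n ih =>
    rw [← Nat.add_assoc]
    simp only [eng]
    rw [ih]

/-- a two-sided ideal, as an additive subgroup -/
def Stab (A : AddSubgroup R) : Prop :=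
  (∀ s m : R, m ∈ A → s * m ∈ A) ∧ ∀ s m : R, m ∈ A → m * s ∈ A

lemma eng_mem {A : AddSubgroup R} (hA : Stab A) {a b : R} {N : ℕ} (h : eng a b N ∈ A) {M : ℕ}
    (hM : N ≤ M) : eng a b M ∈ A := by
  induction M, hM using Nat.le_induction with
  | base => exact h
  | succ m _ ih => exact A.sub_mem (hA.2 _ _ ih) (hA.1 _ _ ih)

variable {g : FreeAlgebra ℤ (Fin 2)} (hg : g ∈ S2) {n : ℕ} (hn : 1 ≤ n)
  (hE : ∀ x y : R, ev x y g = ((eng x y n : R) : Unitization ℤ R))
  {a b : R} (hz : ∀ N, eng a b N ≠ 0)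
  (hmeet : ∀ A : AddSubgroup R, Stab A → A ≠ ⊥ → ∃ N, eng a b N ∈ A)

include hg hE

/-- the Engel word vanishes at `(x,y)` if `x y^j x = 0` for all `j ≥ 0` -/
lemma eng_eq_zero_of_E (x y : R)
    (h : ∀ j : ℕ, em x * (em y) ^ j * em x = 0) :
    eng x y n = 0 := by
  have h1 := hE x y
  rw [ev_S2_eq_zero hg x y h] at h1
  exact (Unitization.inr_injective (R := ℤ) (h1.symm.trans (Unitization.inr_zero ℤ).symm))

include hz hmeet

lemma ideal_prime (A B : AddSubgroup R) (hA : Stab A) (hB : Stab B)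
    (hAB : ∀ i ∈ A, ∀ j ∈ B, i * j = 0) : A = ⊥ ∨ B = ⊥ := by
  by_contra hcon
  push Not at hcon
  obtain ⟨N, hN⟩ := hmeet A hA hcon.1
  obtain ⟨M, hM⟩ := hmeet B hB hcon.2
  let z := eng a b (max N M)
  have hzA : z ∈ A := eng_mem hA hN (le_max_left _ _)
  have hzB : z ∈ B := eng_mem hB hM (le_max_right _ _)
  have h1 : ∀ j : ℕ, ∃ u ∈ A, em z * (em b) ^ j = em u := by
    intro j
    induction j with
    | zero => exact ⟨z, hzA, by rw [pow_zero, mul_one]⟩
    | succ j ih =>
      obtain ⟨u, hu, hzu⟩ := ih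
      refine ⟨u * b, hA.2 _ _ hu, ?_⟩
      rw [pow_succ, ← mul_assoc, hzu, map_mul]
  have h2 : eng z b n = 0 := by
    apply eng_eq_zero_of_E hg hE
    intro j
    obtain ⟨u, hu, hzu⟩ := h1 j
    rw [hzu, ← map_mul, hAB u hu z hzB, map_zero]
  rw [eng_add'] at h2
  exact hz _ h2

lemma elt_prime (u v : R) (huv : ∀ r : R, u * r * v = 0) : u = 0 ∨ v = 0 := by
  by_contra hcon
  push Not at hcon
  obtain ⟨hu, hv⟩ := hcon
  have key := ideal_prime hg hE hz hmeet
  let I : AddSubgroup R :=
    { carrier := {i | ∀ r : R, i * r * v = 0}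
      zero_mem' := fun r => by rw [zero_mul, zero_mul]
      add_mem' := fun {i j} hi hj r => by rw [add_mul, add_mul, hi r, hj r, add_zero]
      neg_mem' := fun {i} hi r => by rw [neg_mul, neg_mul, hi r, neg_zero] }
  have hI : Stab I := by
    constructor
    · intro s m hm r
      rw [mul_assoc, mul_assoc, ← mul_assoc m, hm r, mul_zero]
    · intro s m hm r
      rw [mul_assoc m]
      exact hm _
  let J : AddSubgroup R :=
    { carrier := {j | ∀ i ∈ I, i * j = 0}
      zero_mem' := fun i _ => mul_zero _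
      add_mem' := fun {j k} hj hk i hi => by rw [mul_add, hj i hi, hk i hi, add_zero]
      neg_mem' := fun {j} hj i hi => by rw [mul_neg, hj i hi, neg_zero] }
  have hJ : Stab J := by
    constructor
    · intro s m hm i hi
      rw [← mul_assoc]
      exact hm _ (hI.2 _ _ hi)
    · intro s m hm i hi
      rw [← mul_assoc, hm i hi, zero_mul]
  have hIne : I ≠ ⊥ := by
    intro h
    have : u ∈ I := huv
    rw [h, AddSubgroup.mem_bot] at this
    exact hu this
  have hJb : J = ⊥ := by
    rcases key I J hI hJ (fun i hi j hj => hj i hi) with h | h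
    · exact absurd h hIne
    · exact h
  have hrv : ∀ r : R, r * v = 0 := by
    intro r
    have : r * v ∈ J := fun i hi => by rw [← mul_assoc]; exact hi r
    rw [hJb, AddSubgroup.mem_bot] at this
    exact this
  let N0 : AddSubgroup R :=
    { carrier := {w | ∀ r : R, r * w = 0}
      zero_mem' := fun r => mul_zero _
      add_mem' := fun {j k} hj hk r => by rw [mul_add, hj r, hk r, add_zero]
      neg_mem' := fun {j} hj r => by rw [mul_neg, hj r, neg_zero] }
  have hN0 : Stab N0 := by
    constructor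
    · intro s m hm r
      rw [← mul_assoc, hm]
    · intro s m hm r
      rw [← mul_assoc, hm, zero_mul]
  rcases key ⊤ N0 ⟨fun _ _ _ => trivial, fun _ _ _ => trivial⟩ hN0 (fun i _ j hj => hj i) with h | h
  · have : u ∈ (⊤ : AddSubgroup R) := trivial
    rw [h, AddSubgroup.mem_bot] at this
    exact hu this
  · have : v ∈ N0 := hrv
    rw [h, AddSubgroup.mem_bot] at this
    exact hv this

lemma reduced (c : R) (hc : c * c = 0) : c = 0 := by
  refine levitzki (elt_prime hg hE hz hmeet) n c (fun r => ?_)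
  have h1 : ∀ k, (fun z => z * (r * c))^[k] c = eng c (r * c) k ∧
      ∃ w : UZ R, em (eng c (r * c) k) = em c * w := by
    intro k
    induction k with
    | zero => exact ⟨rfl, 1, by rw [mul_one]; rfl⟩
    | succ k ih =>
      obtain ⟨ih1, w, ihw⟩ := ih
      have h0 : r * c * eng c (r * c) k = 0 := by
        apply em_injective
        rw [map_mul, ihw, ← mul_assoc, ← map_mul, mul_assoc r, hc, mul_zero, map_zero, zero_mul]
      refine ⟨?_, w * em (r * c), ?_⟩
      · rw [Function.iterate_succ_apply', ih1]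
        simp only [eng]
        rw [h0, sub_zero]
      · simp only [eng]
        rw [h0, sub_zero, map_mul, ihw, mul_assoc]
  rw [(h1 n).1]
  apply eng_eq_zero_of_E hg hE
  intro j
  have h2 : em (r * c) * em c = 0 := by
    rw [← map_mul, mul_assoc, hc, mul_zero, map_zero]
  cases j with
  | zero => rw [pow_zero, mul_one, ← map_mul, hc, map_zero]
  | succ j => rw [pow_succ, mul_assoc, mul_assoc, h2, mul_zero, mul_zero]

lemma is_domain (u v : R) (huv : u * v = 0) : u = 0 ∨ v = 0 := by
  have hred := reduced hg hE hz hmeet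
  have hvu : v * u = 0 := by
    apply hred
    rw [mul_assoc, ← mul_assoc u, huv, zero_mul, mul_zero]
  refine elt_prime hg hE hz hmeet u v (fun r => hred _ ?_)
  have : u * r * v * (u * r * v) = u * r * (v * u) * (r * v) := by simp only [mul_assoc]
  rw [this, hvu, mul_zero, zero_mul]

include hn

theorem no_such_ring : False := by
  have hc := domain_comm_of_E hg hn (is_domain hg hE hz hmeet) hE a b
  apply hz 1
  simp only [eng]
  rw [hc, sub_self]

end

/-- Case II: the variety is Engel. -/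
theorem engel_of_E (T : Set RTerm) (n : ℕ) (hn : 1 ≤ n) (g : FreeAlgebra ℤ (Fin 2)) (hg : g ∈ S2)
    (hE : ∀ (R : Type) [NonUnitalRing R], Sat R T → ∀ x y : R,
      ev x y g = ((eng x y n : R) : Unitization ℤ R)) : IsEngel T := by
  by_contra hne
  unfold IsEngel at hne
  push Not at hne
  have hR : ∀ N : ℕ, ∃ (R : Type) (_ : NonUnitalRing R), Sat R T ∧ ∃ x y : R, eng x y (N + 1) ≠ 0 := by
    intro N
    obtain ⟨R, i, hRT, x, y, h⟩ := hne (N + 1) (by omega)
    exact ⟨R, i, hRT, x, y, h⟩
  choose R ρ hRT x y hxy using hR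
  let Pr : Type := ∀ N, R N
  have hPr : Sat Pr T := Sat.pi hRT
  let a : Pr := x
  let b : Pr := y
  have hcoord : ∀ (M N : ℕ), (eng a b M) N = eng (x N) (y N) M := by
    intro M N
    exact map_eng (Pi.evalNonUnitalRingHom R N) a b M
  have hab : ∀ N, eng a b N ≠ 0 := by
    intro N h0
    have h1 : eng a b (N + 1) = 0 := by
      simp only [eng]
      rw [h0, zero_mul, mul_zero, sub_zero]
    apply hxy N
    rw [← hcoord, h1]
    rfl
  obtain ⟨K, hK, hmax⟩ := exists_maximal_avoid (Set.range (eng a b)) (by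
    rintro ⟨N, hN⟩
    exact hab N hN)
  have hQ : Sat K.ringCon.Quotient T := hPr.of_surjective (qmk K) (qmk_surjective K)
  refine no_such_ring (R := K.ringCon.Quotient) (a := qmk K a) (b := qmk K b) hg (n := n)
    hn (hE _ hQ) ?_ ?_
  · intro N h0
    rw [← map_eng, qmk_eq_zero_iff] at h0
    exact hK _ ⟨N, rfl⟩ h0
  · intro A hA hAne
    obtain ⟨z, ⟨N, rfl⟩, hz⟩ := quot_meets hmax A hA.1 hA.2 hAne
    exact ⟨N, by rw [← map_eng]; exact hz⟩

end Pool.Agent.Helper446_ENG
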