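import Mathlib

/-! Varieties of associative (not necessarily unital) rings, Engel varieties, Cross varieties. -/

namespace Pool.Agent.Helper446_ENG

/-- Terms in the signature `(+,-,0,·)` with variables indexed by `ℕ`. -/
inductive RTerm : Type
  | var : ℕ → RTerm
  | zero : RTerm
  | add : RTerm → RTerm → RTerm
  | neg : RTerm → RTerm
  | mul : RTerm → RTerm → RTerm

/-- The value of a term in an associative ring under an assignment of the variables. -/
def RTerm.eval {R : Type*} [NonUnitalRing R] (v : ℕ → R) : RTerm → R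
  | .var n => v n
  | .zero => 0
  | .add s t => s.eval v + t.eval v
  | .neg s => - s.eval v
  | .mul s t => s.eval v * t.eval v

/-- `R` satisfies all the polynomial identities `t = 0`, `t ∈ T`. The variety defined by `T` is the class of
all rings `R` with `Sat R T`. -/
def Sat (R : Type) [NonUnitalRing R] (T : Set RTerm) : Prop :=
  ∀ t ∈ T, ∀ v : ℕ → R, t.eval v = 0

/-- The iterated commutator `[x,_n y]`. -/
def eng {R : Type*} [NonUnitalRing R] (x y : R) : ℕ → R
  | 0 => x
  | n + 1 => eng x y n * y - y * eng x y n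

/-- The variety defined by `T` is Engel. -/
def IsEngel (T : Set RTerm) : Prop :=
  ∃ n : ℕ, 1 ≤ n ∧ ∀ (R : Type) [NonUnitalRing R], Sat R T → ∀ x y : R, eng x y n = 0

/-- The variety defined by `T'` is a proper subvariety of the one defined by `T`. -/
def IsProperSub (T' T : Set RTerm) : Prop :=
  (∀ (R : Type) [NonUnitalRing R], Sat R T' → Sat R T) ∧
    ∃ (R : Type) (_ : NonUnitalRing R), Sat R T ∧ ¬ Sat R T'

/-- The variety defined by `T` is minimal non-Engel. -/
def IsMinNonEngel (T : Set RTerm) : Prop :=
  ¬ IsEngel T ∧ ∀ T' : Set RTerm, IsProperSub T' T → IsEngel T'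

/-- `F` is a factor of `R`: a homomorphic image of a subring of `R`. -/
def IsFactor (F R : Type) [NonUnitalRing F] [NonUnitalRing R] : Prop :=
  ∃ (S : NonUnitalSubring R) (f : S →ₙ+* F), Function.Surjective f

/-- `F` is a proper factor of `R`: a factor of `R` not isomorphic to `R`. -/
def IsProperFactor (F R : Type) [NonUnitalRing F] [NonUnitalRing R] : Prop :=
  IsFactor F R ∧ ¬ Nonempty (F ≃+* R)

/-- `R` lies in the variety generated by its proper factors: it satisfies every identity which holds in
all of them. -/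
def InVarOfProperFactors (R : Type) [NonUnitalRing R] : Prop :=
  ∀ t : RTerm, (∀ (F : Type) [NonUnitalRing F], IsProperFactor F R → ∀ v : ℕ → F, t.eval v = 0) →
    ∀ v : ℕ → R, t.eval v = 0

/-- `R` is a critical ring. -/
def IsCritical (R : Type) [NonUnitalRing R] : Prop :=
  Finite R ∧ ¬ InVarOfProperFactors R

/-- The variety defined by `T` is finitely based. -/
def IsFinBased (T : Set RTerm) : Prop :=
  ∃ T₀ : Set RTerm, T₀.Finite ∧ ∀ (R : Type) [NonUnitalRing R], Sat R T₀ ↔ Sat R T

/-- The variety defined by `T` is locally finite: its finitely generated members are finite. -/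
def IsLocFin (T : Set RTerm) : Prop :=
  ∀ (R : Type) [NonUnitalRing R], Sat R T →
    (∃ s : Set R, s.Finite ∧ NonUnitalSubring.closure s = ⊤) → Finite R

/-- The variety defined by `T` contains only finitely many critical rings up to isomorphism. -/
def HasFinManyCritical (T : Set RTerm) : Prop :=
  ∃ (n : ℕ) (L : Fin n → Type) (_ : ∀ i, NonUnitalRing (L i)),
    ∀ (R : Type) [NonUnitalRing R], Sat R T → IsCritical R → ∃ i, Nonempty (R ≃+* L i)

/-- The variety defined by `T` is a Cross variety. -/
def IsCross (T : Set RTerm) : Prop :=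
  IsFinBased T ∧ IsLocFin T ∧ HasFinManyCritical T

/-! ### Basic facts -/

lemma map_eval {R S : Type*} [NonUnitalRing R] [NonUnitalRing S] (f : R →ₙ+* S) (v : ℕ → R) (t : RTerm) :
    f (t.eval v) = t.eval (fun i => f (v i)) := by
  induction t with
  | var n => rfl
  | zero => simp [RTerm.eval]
  | add s t hs ht => simp [RTerm.eval, hs, ht]
  | neg s hs => simp [RTerm.eval, hs]
  | mul s t hs ht => simp [RTerm.eval, hs, ht]

lemma map_eng {R S : Type*} [NonUnitalRing R] [NonUnitalRing S] (f : R →ₙ+* S) (x y : R) (n : ℕ) :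
    f (eng x y n) = eng (f x) (f y) n := by
  induction n with
  | zero => rfl
  | succ n ih => simp [eng, ih]

lemma Sat.of_injective {R S : Type} [NonUnitalRing R] [NonUnitalRing S] {T : Set RTerm} (h : Sat R T)
    (f : S →ₙ+* R) (hf : Function.Injective f) : Sat S T := by
  intro t ht v
  apply hf
  rw [map_eval, h t ht, map_zero]

lemma Sat.of_surjective {R S : Type} [NonUnitalRing R] [NonUnitalRing S] {T : Set RTerm} (h : Sat R T)
    (f : R →ₙ+* S) (hf : Function.Surjective f) : Sat S T := by
  intro t ht v
  choose w hw using fun i => hf (v i)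
  have : v = fun i => f (w i) := funext fun i => (hw i).symm
  rw [this, ← map_eval, h t ht, map_zero]

lemma Sat.pi {ι : Type} {R : ι → Type} [∀ i, NonUnitalRing (R i)] {T : Set RTerm} (h : ∀ i, Sat (R i) T) :
    Sat (∀ i, R i) T := by
  intro t ht v
  funext i
  have := map_eval (Pi.evalNonUnitalRingHom R i) v t
  rw [Pi.evalNonUnitalRingHom_apply] at this
  rw [this, h i t ht]
  rfl

lemma Sat.mono {R : Type} [NonUnitalRing R] {T T' : Set RTerm} (h : Sat R T) (hT : T' ⊆ T) : Sat R T' :=
  fun t ht v => h t (hT ht) v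

lemma sat_union {R : Type} [NonUnitalRing R] {T T' : Set RTerm} :
    Sat R (T ∪ T') ↔ Sat R T ∧ Sat R T' :=
  ⟨fun h => ⟨h.mono Set.subset_union_left, h.mono Set.subset_union_right⟩,
    fun h t ht v => ht.elim (fun h1 => h.1 t h1 v) (fun h1 => h.2 t h1 v)⟩

/-- the quotient map of a nonunital ring by a two-sided ideal -/
def qmk {R : Type*} [NonUnitalRing R] (K : TwoSidedIdeal R) : R →ₙ+* K.ringCon.Quotient where
  toFun x := (x : K.ringCon.Quotient)
  map_mul' _ _ := rfl
  map_zero' := rfl
  map_add' _ _ := rfl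

lemma qmk_surjective {R : Type*} [NonUnitalRing R] (K : TwoSidedIdeal R) : Function.Surjective (qmk K) :=
  fun x => Quotient.inductionOn' x fun a => ⟨a, rfl⟩

lemma qmk_eq_zero_iff {R : Type*} [NonUnitalRing R] (K : TwoSidedIdeal R) (x : R) :
    qmk K x = 0 ↔ x ∈ K := by
  have : qmk K x = 0 ↔ ((x : K.ringCon.Quotient) = ((0 : R) : K.ringCon.Quotient)) := Iff.rfl
  rw [this, RingCon.eq, TwoSidedIdeal.mem_iff]

end Pool.Agent.Helper446_ENG
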