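import Pool.Agent.Helper446_ENG.Defs

/-! Domains with an Engel identity are commutative (proof by helper437). -/

namespace Pool.Agent.Helper446_ENG

theorem J7_exists {R : Type} [NonUnitalRing R] {n : ℕ} (h : ∀ x y : R, eng x y n = 0) {x y : R}
    (hxy : x * y ≠ y * x) : ∃ a b : R, a * y - y * a = b ∧ b ≠ 0 ∧ b * y = y * b := by
  classical
  have hex : ∃ j, eng x y j = 0 := ⟨n, h x y⟩
  have h0 : Nat.find hex ≠ 0 := by
    intro h1
    have h2 := Nat.find_spec hex
    rw [h1] at h2
    apply hxy
    have h3 : x = 0 := h2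
    rw [h3, zero_mul, mul_zero]
  have h1 : Nat.find hex ≠ 1 := by
    intro h1
    have h2 := Nat.find_spec hex
    rw [h1] at h2
    exact hxy (sub_eq_zero.1 h2)
  obtain ⟨i, hi⟩ : ∃ i, Nat.find hex = i + 2 := ⟨Nat.find hex - 2, by omega⟩
  refine ⟨eng x y i, eng x y (i + 1), rfl, Nat.find_min hex (by omega), ?_⟩
  have h2 := Nat.find_spec hex
  rw [hi] at h2
  exact sub_eq_zero.1 h2

/-- `b ^ (k + 1)` -/
def J7_pw {R : Type} [NonUnitalRing R] (b : R) : ℕ → R
  | 0 => b
  | k + 1 => b * J7_pw b k

theorem J7_pw_comm {R : Type} [NonUnitalRing R] {b y : R} (hby : b * y = y * b) (k : ℕ) :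
    J7_pw b k * y = y * J7_pw b k := by
  induction k with
  | zero => exact hby
  | succ k ih =>
    simp only [J7_pw]
    rw [mul_assoc, ih, ← mul_assoc, hby, mul_assoc]

theorem J7_pw_ne {R : Type} [NonUnitalRing R] (hdom : ∀ a b : R, a * b = 0 → a = 0 ∨ b = 0)
    {b : R} (hb : b ≠ 0) (k : ℕ) : J7_pw b k ≠ 0 := by
  induction k with
  | zero => exact hb
  | succ k ih =>
    intro h0
    rcases hdom _ _ h0 with h1 | h1
    · exact hb h1
    · exact ih h1

/-- left multiplication -/
def J7_Lm {R : Type} [NonUnitalRing R] (b : R) : AddMonoid.End R := AddMonoidHom.mulLeft b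

/-- right multiplication -/
def J7_Rm {R : Type} [NonUnitalRing R] (b : R) : AddMonoid.End R := AddMonoidHom.mulRight b

theorem J7_Lm_apply {R : Type} [NonUnitalRing R] (b z : R) : J7_Lm b z = b * z := rfl

theorem J7_Rm_apply {R : Type} [NonUnitalRing R] (b z : R) : J7_Rm b z = z * b := rfl

theorem J7_mul_apply {R : Type} [NonUnitalRing R] (f g : AddMonoid.End R) (z : R) :
    (f * g) z = f (g z) := rfl

theorem J7_L {R : Type} [NonUnitalRing R] (b z : R) (k : ℕ) :
    (J7_Lm b ^ (k + 1)) z = J7_pw b k * z := by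
  induction k with
  | zero => simp [J7_pw, J7_Lm_apply]
  | succ k ih =>
    rw [pow_succ', J7_mul_apply, ih, J7_Lm_apply]
    simp only [J7_pw, mul_assoc]

theorem J7_R {R : Type} [NonUnitalRing R] (b z : R) (k : ℕ) :
    (J7_Rm b ^ (k + 1)) z = z * J7_pw b k := by
  induction k with
  | zero => simp [J7_pw, J7_Rm_apply]
  | succ k ih =>
    rw [pow_succ', J7_mul_apply, ih, J7_Rm_apply]
    have h1 : J7_pw b k * b = b * J7_pw b k := J7_pw_comm rfl k
    simp only [J7_pw, mul_assoc, h1]

theorem J7_eng {R : Type} [NonUnitalRing R] (b z : R) (k : ℕ) :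
    eng z b k = ((J7_Rm b - J7_Lm b) ^ k) z := by
  induction k with
  | zero => simp [eng]
  | succ k ih =>
    rw [pow_succ', J7_mul_apply, ← ih]
    simp only [eng]
    rfl

theorem J7_eng_ge {R : Type} [NonUnitalRing R] {n : ℕ} (h : ∀ x y : R, eng x y n = 0) (x y : R)
    {m : ℕ} (hm : n ≤ m) : eng x y m = 0 := by
  induction m, hm using Nat.le_induction with
  | base => exact h x y
  | succ m _ ih =>
    simp only [eng]
    rw [ih, zero_mul, mul_zero, sub_zero]

theorem J7_central {R : Type} [NonUnitalRing R] {p : ℕ} (hp : p.Prime)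
    (hchar : ∀ r : R, p • r = 0) {n : ℕ} (h : ∀ x y : R, eng x y n = 0) (b : R) (k e : ℕ)
    (hk : k + 1 = p ^ e) (hn : n ≤ k + 1) (z : R) : J7_pw b k * z = z * J7_pw b k := by
  have hcomm : Commute (J7_Rm b) (J7_Lm b) := by
    ext w
    show (b * w) * b = b * (w * b)
    rw [mul_assoc]
  rcases subsingleton_or_nontrivial (AddMonoid.End R) with hs | hs
  · have h1 : (1 : AddMonoid.End R) = 0 := Subsingleton.elim _ _
    have h2 : ∀ w : R, w = 0 := fun w => by
      have := congrArg (fun f : AddMonoid.End R => f w) h1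
      exact this
    rw [h2 (J7_pw b k), zero_mul, mul_zero]
  · have : Fact p.Prime := ⟨hp⟩
    have hp0 : (p : AddMonoid.End R) = 0 := by
      ext w
      rw [AddMonoid.End.natCast_apply]
      exact hchar w
    have : CharP (AddMonoid.End R) p := by
      have := CharP.ringChar_of_prime_eq_zero hp hp0
      rw [← this]
      exact ringChar.charP _
    have h1 := J7_eng b z (k + 1)
    rw [J7_eng_ge h z b hn, hk, sub_pow_char_pow_of_commute _ _ hcomm, ← hk] at h1
    have h2 : ((J7_Rm b ^ (k + 1)) -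
      (J7_Lm b ^ (k + 1))) z =
      (J7_Rm b ^ (k + 1)) z -
      (J7_Lm b ^ (k + 1)) z := rfl
    rw [h2, J7_L, J7_R] at h1
    exact (sub_eq_zero.1 h1.symm).symm

theorem engel_domain_comm_charp {R : Type} [NonUnitalRing R] (hdom : ∀ a b : R, a * b = 0 → a = 0 ∨ b = 0)
    (p : ℕ) (hp : p.Prime) (hchar : ∀ r : R, p • r = 0) (n : ℕ) (h : ∀ x y : R, eng x y n = 0)
    (x y : R) : x * y = y * x := by
  by_contra hxy
  obtain ⟨a, b, hab, hb, hby⟩ := J7_exists h hxy
  have hy : y ≠ 0 := by
    rintro rfl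
    apply hb
    rw [← hab, mul_zero, zero_mul, sub_zero]
  have hq : n + 2 ≤ p ^ (n + 1) := by
    have h1 : n + 1 < 2 ^ (n + 1) := Nat.lt_two_pow_self
    have h2 : 2 ^ (n + 1) ≤ p ^ (n + 1) := Nat.pow_le_pow_left hp.two_le _
    omega
  obtain ⟨k, hk⟩ : ∃ k, k + 1 + 1 = p ^ (n + 1) := ⟨p ^ (n + 1) - 2, by omega⟩
  have hcen : ∀ z : R, J7_pw b (k + 1) * z = z * J7_pw b (k + 1) :=
    J7_central hp hchar h b (k + 1) (n + 1) hk (by omega)
  have hc0 : J7_pw b (k + 1) ≠ 0 := J7_pw_ne hdom hb _
  have hcb : J7_pw b (k + 1) = b * J7_pw b k := rfl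
  set c := J7_pw b (k + 1) with hc
  set b' := J7_pw b k with hb'
  have hb'y : b' * y = y * b' := J7_pw_comm hby k
  set s := a * b' * y with hs
  have hay : a * y = y * a + b := by rw [← hab]; abel
  have hsy : s * y = y * s + c * y := by
    have e1 : s * y = (a * y) * b' * y := by
      rw [hs, mul_assoc a b' y, hb'y, ← mul_assoc a y b']
    rw [e1, hay, hcb, hs, add_mul, add_mul]
    simp only [mul_assoc]
  have key : ∀ m, eng y s m ≠ 0 ∧
      eng y s m * s - s * eng y s m = -(c * eng y s m) := by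
    intro m
    induction m with
    | zero =>
      refine ⟨hy, ?_⟩
      show y * s - s * y = -(c * y)
      rw [hsy]; abel
    | succ m ih =>
      obtain ⟨i1, i2⟩ := ih
      have e1 : eng y s (m + 1) = -(c * eng y s m) := i2
      refine ⟨?_, ?_⟩
      · rw [e1, neg_ne_zero]
        intro h0
        rcases hdom _ _ h0 with h1 | h1
        · exact hc0 h1
        · exact i1 h1
      · rw [e1]
        have e2 : -(c * eng y s m) * s - s * -(c * eng y s m) =
            -(c * (eng y s m * s - s * eng y s m)) := by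
          have e3 : s * (c * eng y s m) = c * (s * eng y s m) := by
            rw [← mul_assoc, ← hcen s, mul_assoc]
          rw [neg_mul, mul_neg, e3, mul_sub, mul_assoc]
          abel
        rw [e2, i2]
  exact (key n).1 (h y s)

theorem engel_domain_comm_torsionfree {R : Type} [NonUnitalRing R]
    (hdom : ∀ a b : R, a * b = 0 → a = 0 ∨ b = 0)
    (htf : ∀ (k : ℕ) (r : R), k ≠ 0 → k • r = 0 → r = 0) (n : ℕ) (h : ∀ x y : R, eng x y n = 0)
    (x y : R) : x * y = y * x := by
  by_contra hxy
  obtain ⟨a, b, hab, hb, hby⟩ := J7_exists h hxy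
  have leib : ∀ (m : ℕ) (w : R), eng (a * w) y (m + 1) =
      a * eng w y (m + 1) + (m + 1) • (b * eng w y m) := by
    intro m w
    induction m with
    | zero =>
      simp only [eng]
      rw [← hab, zero_add, one_nsmul]
      simp only [mul_sub, sub_mul, mul_assoc]
      abel
    | succ m ih =>
      have e1 : eng (a * w) y (m + 1 + 1) = eng (a * w) y (m + 1) * y - y * eng (a * w) y (m + 1) :=
        rfl
      have e2 : eng w y (m + 1 + 1) = eng w y (m + 1) * y - y * eng w y (m + 1) := rfl
      have e3 : eng w y (m + 1) = eng w y m * y - y * eng w y m := rfl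
      rw [e1, ih, add_mul, mul_add, smul_mul_assoc, mul_smul_comm]
      have e4 : y * (b * eng w y m) = b * (y * eng w y m) := by
        rw [← mul_assoc, ← hby, mul_assoc]
      have e5 : (m + 1) • (b * eng w y m * y) - (m + 1) • (y * (b * eng w y m)) =
          (m + 1) • (b * eng w y (m + 1)) := by
        rw [e4, ← smul_sub, mul_assoc, ← mul_sub, ← e3]
      have e6 : a * eng w y (m + 1) * y - y * (a * eng w y (m + 1)) =
          a * eng w y (m + 1 + 1) + b * eng w y (m + 1) := by
        rw [e2, ← hab]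
        simp only [mul_sub, sub_mul, mul_assoc]
        abel
      rw [add_sub_add_comm, e5, e6, add_smul (m + 1) 1, one_smul]
      abel
  have key : ∀ k : ℕ, ∃ w : R, eng w y k ≠ 0 ∧ eng w y (k + 1) = 0 := by
    intro k
    induction k with
    | zero => exact ⟨b, hb, sub_eq_zero.2 hby⟩
    | succ k ih =>
      obtain ⟨w, h1, h2⟩ := ih
      have e1 : eng (a * w) y (k + 1) = (k + 1) • (b * eng w y k) := by
        rw [leib, h2, mul_zero, zero_add]
      refine ⟨a * w, ?_, ?_⟩
      · rw [e1]
        intro h0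
        rcases hdom _ _ (htf _ _ (Nat.succ_ne_zero k) h0) with h3 | h3
        · exact hb h3
        · exact h1 h3
      · rw [leib, h2, mul_zero, smul_zero, add_zero]
        have e2 : eng w y (k + 1 + 1) = 0 := by
          simp only [eng] at h2 ⊢
          rw [h2, zero_mul, mul_zero, sub_zero]
        rw [e2, mul_zero]
  obtain ⟨w, h1, _⟩ := key n
  exact h1 (h w y)

end Pool.Agent.Helper446_ENG
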