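import Mathlib

/-! A periodic domain of characteristic `p` is commutative (proof by helper851). -/

namespace Pool.Agent.Helper446_ENG

open Polynomial in
theorem J5266_exists_eig {D : Type} [Ring D] {K : Type} [Field K] [Fintype K] (φ : K →+* D)
    (α : K) (y : D) (hy : y * φ α ≠ φ α * y) :
    ∃ (β : K) (x : D), β ≠ α ∧ x ≠ 0 ∧ x * φ α = φ β * x := by
  classical
  let _ : Module K D := Module.compHom D φ
  have hsm : ∀ (c : K) (d : D), c • d = φ c * d := fun c d => rfl
  by_contra hcon
  push Not at hcon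
  let R : Module.End K D :=
    { toFun := fun x => x * φ α
      map_add' := fun x y => add_mul _ _ _
      map_smul' := fun c x => by simp only [hsm, RingHom.id_apply, mul_assoc] }
  have hR : ∀ x, R x = x * φ α := fun x => rfl
  have hRpow : ∀ (n : ℕ) (x : D), (R ^ n) x = x * φ (α ^ n) := by
    intro n
    induction n with
    | zero => intro x; simp
    | succ n ih =>
      intro x
      rw [pow_succ', Module.End.mul_apply, ih, hR, pow_succ, map_mul, mul_assoc]
  have hprod : ∏ β : K, (X - C β : K[X]) = X ^ Fintype.card K - X := by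
    have hmonic : (X ^ Fintype.card K - X : K[X]).Monic := by
      apply monic_X_pow_sub
      rw [degree_X]
      exact_mod_cast Fintype.one_lt_card
    have h1 := FiniteField.roots_X_pow_card_sub_X K
    have h2 := prod_multiset_X_sub_C_of_monic_of_roots_card_eq hmonic (by
      rw [h1, FiniteField.X_pow_card_sub_X_natDegree_eq K Fintype.one_lt_card]
      rfl)
    rw [h1] at h2
    exact h2
  have hinj : ∀ s : Finset K, α ∉ s → Function.Injective (aeval R (∏ β ∈ s, (X - C β : K[X]))) := by
    intro s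
    induction s using Finset.induction_on with
    | empty => intro _; simp; exact Function.injective_id
    | insert β s hβ ih =>
      intro hα
      rw [Finset.prod_insert hβ, map_mul]
      have h1 : Function.Injective (aeval R (X - C β : K[X])) := by
        rw [injective_iff_map_eq_zero]
        intro x hx
        by_contra hx0
        refine hcon β x (fun h => hα (by simp [h])) hx0 ?_
        rw [map_sub, aeval_X, aeval_C] at hx
        simpa [hR, hsm, sub_eq_zero] using hx
      exact h1.comp (ih (fun h => hα (by simp [h])))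
  have hzero : aeval R (∏ β : K, (X - C β : K[X])) = 0 := by
    rw [hprod, map_sub, map_pow, aeval_X]
    ext x
    rw [LinearMap.sub_apply, hRpow, FiniteField.pow_card, hR, sub_self, LinearMap.zero_apply]
  rw [← Finset.mul_prod_erase Finset.univ _ (Finset.mem_univ α), mul_comm, map_mul] at hzero
  have h2 := hinj (Finset.univ.erase α) (by simp)
  have h3 := LinearMap.congr_fun hzero y
  rw [Module.End.mul_apply, LinearMap.zero_apply] at h3
  have h4 : (aeval R (X - C α : K[X])) y = 0 := by
    apply h2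
    rw [h3, map_zero]
  rw [map_sub, aeval_X, aeval_C] at h4
  apply hy
  simpa [hR, hsm, sub_eq_zero] using h4

theorem J5266_finite_of_fg {D : Type} [Ring D] (p : ℕ) [Fact p.Prime] [Algebra (ZMod p) D]
    (S : Subalgebra (ZMod p) D) (h : S.toSubmodule.FG) : Finite S := by
  have : Module.Finite (ZMod p) S.toSubmodule := Module.Finite.iff_fg.mpr h
  have h2 : Finite S.toSubmodule := Module.finite_of_finite (ZMod p)
  exact h2

theorem periodic_domain_comm {D : Type} [Ring D] [IsDomain D] (p : ℕ) [Fact p.Prime] [CharP D p]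
    (h : ∀ x : D, x ≠ 0 → ∃ m : ℕ, 1 ≤ m ∧ x ^ m = 1) (x y : D) : x * y = y * x := by
  classical
  by_contra hxy
  let _ : Algebra (ZMod p) D := ZMod.algebra D p
  -- a := y
  have hint : ∀ a : D, IsIntegral (ZMod p) a := by
    intro a
    by_cases ha : a = 0
    · rw [ha]; exact isIntegral_zero
    · obtain ⟨m, hm, ham⟩ := h a ha
      exact ⟨Polynomial.X ^ m - 1, Polynomial.monic_X_pow_sub_C 1 (by omega), by simp [ham]⟩
  let L : Subalgebra (ZMod p) D := Algebra.adjoin (ZMod p) {y}
  have hLfin : Finite L := J5266_finite_of_fg p L (hint y).fg_adjoin_singleton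
  have hLdom : IsDomain L := inferInstance
  have hF : IsField L := Finite.isDomain_to_isField L
  have hyL : y ∈ L := Algebra.subset_adjoin rfl
  obtain ⟨β, u, hβ, hu, huy⟩ : ∃ (β : L) (u : D), β ≠ ⟨y, hyL⟩ ∧ u ≠ 0 ∧ u * y = (β : D) * u := by
    let _ : Field L := hF.toField
    have : Fintype L := Fintype.ofFinite L
    exact J5266_exists_eig (L.val : L →ₐ[ZMod p] D).toRingHom ⟨y, hyL⟩ x hxy
  -- u L ⊆ L u
  have hcomm : ∀ l ∈ L, ∃ l' ∈ L, u * l = l' * u := by
    intro l hl
    induction hl using Algebra.adjoin_induction with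
    | mem z hz =>
      rw [Set.mem_singleton_iff] at hz
      subst hz
      exact ⟨β, β.2, huy⟩
    | algebraMap r =>
      exact ⟨algebraMap (ZMod p) D r, L.algebraMap_mem r, (Algebra.commutes r u).symm⟩
    | add a b _ _ ha hb =>
      obtain ⟨a', ha', ha2⟩ := ha
      obtain ⟨b', hb', hb2⟩ := hb
      exact ⟨a' + b', L.add_mem ha' hb', by rw [mul_add, ha2, hb2, add_mul]⟩
    | mul a b _ _ ha hb =>
      obtain ⟨a', ha', ha2⟩ := ha
      obtain ⟨b', hb', hb2⟩ := hb
      exact ⟨a' * b', L.mul_mem ha' hb', by rw [← mul_assoc, ha2, mul_assoc, hb2, mul_assoc]⟩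
  have hcomm2 : ∀ (j : ℕ), ∀ l ∈ L, ∃ l' ∈ L, u ^ j * l = l' * u ^ j := by
    intro j
    induction j with
    | zero => intro l hl; exact ⟨l, hl, by simp⟩
    | succ j ih =>
      intro l hl
      obtain ⟨l1, hl1, h1⟩ := hcomm l hl
      obtain ⟨l2, hl2, h2⟩ := ih l1 hl1
      exact ⟨l2, hl2, by rw [pow_succ, mul_assoc, h1, ← mul_assoc, h2, mul_assoc]⟩
  let M : Submonoid D :=
    { carrier := {z | ∃ l ∈ L, ∃ j : ℕ, z = l * u ^ j}
      one_mem' := ⟨1, L.one_mem, 0, by simp⟩
      mul_mem' := by
        rintro a b ⟨l, hl, j, rfl⟩ ⟨l', hl', k, rfl⟩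
        obtain ⟨l2, hl2, h2⟩ := hcomm2 j l' hl'
        refine ⟨l * l2, L.mul_mem hl hl2, j + k, ?_⟩
        rw [mul_assoc, ← mul_assoc (u ^ j), h2, pow_add, mul_assoc, mul_assoc] }
  obtain ⟨m, hm, hum⟩ := h u hu
  have hMfin : (M : Set D).Finite := by
    have h1 : (M : Set D) ⊆ (fun q : L × Fin m => (q.1 : D) * u ^ (q.2 : ℕ)) '' Set.univ := by
      rintro z ⟨l, hl, j, rfl⟩
      refine ⟨(⟨l, hl⟩, ⟨j % m, Nat.mod_lt _ (by omega)⟩), trivial, ?_⟩
      have : u ^ (j % m) = u ^ j := by
        conv_rhs => rw [← Nat.div_add_mod j m, pow_add, pow_mul, hum, one_pow, one_mul]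
      simp [this]
    exact (Set.toFinite _).subset h1
  let T : Subalgebra (ZMod p) D := Algebra.adjoin (ZMod p) (M : Set D)
  have hTfin : Finite T := by
    apply J5266_finite_of_fg p T
    rw [Algebra.adjoin_eq_span, Submonoid.closure_eq]
    exact Submodule.fg_span hMfin
  have hTF : IsField T := Finite.isDomain_to_isField T
  have hyT : y ∈ T := Algebra.subset_adjoin ⟨y, hyL, 0, by simp⟩
  have huT : u ∈ T := Algebra.subset_adjoin ⟨1, L.one_mem, 1, by simp⟩
  have h5 := hTF.mul_comm ⟨u, huT⟩ ⟨y, hyT⟩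
  have h6 : u * y = y * u := congrArg Subtype.val h5
  apply hβ
  apply Subtype.ext
  have h7 : (β : D) * u = y * u := by rw [← huy, h6]
  exact mul_right_cancel₀ hu h7

end Pool.Agent.Helper446_ENG
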