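import Pool.Agent.Helper446_ENG.PD
import Pool.Agent.Helper446_ENG.Eng
import Pool.Agent.Helper446_ENG.Jac

/-! A (nonunital) domain satisfying an identity `[x,_n y] = g(x,y)`, every monomial of `g` of degree `≥ 2` in `x`,
is commutative. -/

namespace Pool.Agent.Helper446_ENG

section

variable {R : Type} [NonUnitalRing R]

lemma char_or_tf (hdom : ∀ a b : R, a * b = 0 → a = 0 ∨ b = 0) :
    (∀ (k : ℕ) (r : R), k ≠ 0 → k • r = 0 → r = 0) ∨ ∃ p : ℕ, p.Prime ∧ ∀ r : R, p • r = 0 := by
  classical
  by_cases htf : ∀ (k : ℕ) (r : R), k ≠ 0 → k • r = 0 → r = 0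
  · exact Or.inl htf
  · right
    push Not at htf
    obtain ⟨k, r, hk, hkr, hr⟩ := htf
    have hex : ∃ k : ℕ, 0 < k ∧ ∀ s : R, k • s = 0 := by
      refine ⟨k, Nat.pos_of_ne_zero hk, fun s => ?_⟩
      have : (k • s) * r = 0 := by
        rw [smul_mul_assoc, ← mul_smul_comm, hkr, mul_zero]
      rcases hdom _ _ this with h | h
      · exact h
      · exact absurd h hr
    obtain ⟨h1, h2⟩ := Nat.find_spec hex
    set k0 := Nat.find hex with hk0
    have hne1 : k0 ≠ 1 := by
      intro h
      rw [h] at h2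
      exact hr (by simpa using h2 r)
    obtain ⟨m, hm⟩ := Nat.minFac_dvd k0
    have hp := Nat.minFac_prime hne1
    refine ⟨k0.minFac, hp, fun t => ?_⟩
    have hm0 : 0 < m := by
      rcases Nat.eq_zero_or_pos m with h | h
      · rw [h, mul_zero] at hm
        omega
      · exact h
    have hlt : m < k0 := by
      have := hp.two_le
      nlinarith
    have hnot := Nat.find_min hex hlt
    push Not at hnot
    obtain ⟨s, hs⟩ := hnot hm0
    have : (k0.minFac • t) * (m • s) = 0 := by
      rw [smul_mul_assoc, mul_smul_comm, ← mul_smul, ← hm]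
      exact h2 _
    rcases hdom _ _ this with h | h
    · exact h
    · exact absurd h hs

lemma pw_mul_pw (y : R) (i j : ℕ) : J7_pw y i * J7_pw y j = J7_pw y (i + j + 1) := by
  induction i with
  | zero => rw [zero_add]; rfl
  | succ i ih =>
    show y * J7_pw y i * J7_pw y j = _
    rw [mul_assoc, ih]
    have : i + 1 + j + 1 = (i + j + 1) + 1 := by ring
    rw [this]
    rfl

/-- If the powers of `y` are distinct then no nonempty subset sum of powers vanishes. -/
lemma subsetSum_ne_zero (p : ℕ) (hp : p.Prime) (hchar : ∀ r : R, p • r = 0) (y : R)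
    (hinj : ∀ i j : ℕ, i < j → J7_pw y i ≠ J7_pw y j) (s : Finset ℕ) (hs : s.Nonempty) :
    ∑ i ∈ s, J7_pw y i ≠ 0 := by
  intro hsum
  set d := s.max' hs with hd
  let G : AddSubgroup R := AddSubgroup.closure ((fun i => J7_pw y i) '' (Finset.range d : Set ℕ))
  have hshift : ∀ t, ∑ i ∈ s, J7_pw y (i + t) = 0 := by
    intro t
    induction t with
    | zero => simpa using hsum
    | succ t ih =>
      have h1 : y * ∑ i ∈ s, J7_pw y (i + t) = 0 := by rw [ih, mul_zero]
      rw [Finset.mul_sum] at h1
      exact h1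
  have hG : ∀ k, J7_pw y k ∈ G := by
    intro k
    induction k using Nat.strong_induction_on with
    | _ k ih =>
      by_cases hk : k < d
      · exact AddSubgroup.subset_closure ⟨k, by simpa using hk, rfl⟩
      · obtain ⟨t, rfl⟩ : ∃ t, k = d + t := ⟨k - d, by omega⟩
        have h1 := hshift t
        rw [← Finset.add_sum_erase s _ (s.max'_mem hs)] at h1
        have h2 : J7_pw y (d + t) = - ∑ i ∈ s.erase d, J7_pw y (i + t) :=
          eq_neg_of_add_eq_zero_left h1
        rw [h2]
        refine G.neg_mem (G.sum_mem fun i hi => ih _ ?_)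
        have h3 : i < d := by
          have h4 := s.le_max' i (Finset.mem_of_mem_erase hi)
          have h5 := Finset.ne_of_mem_erase hi
          omega
        omega
  have : Finite ((fun i => J7_pw y i) '' (Finset.range d : Set ℕ)) :=
    (Set.Finite.image _ (Finset.finite_toSet _)).to_subtype
  have : AddGroup.FG G := AddGroup.closure_finite_fg _
  have hfin : Finite G := by
    apply AddCommGroup.finite_of_fg_torsion
    intro x
    rw [isOfFinAddOrder_iff_nsmul_eq_zero]
    exact ⟨p, hp.pos, Subtype.ext (hchar x)⟩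
  obtain ⟨i, j, hij, hEq⟩ := Finite.exists_ne_map_eq_of_infinite (fun k : ℕ => (⟨J7_pw y k, hG k⟩ : G))
  have hEq' : J7_pw y i = J7_pw y j := congrArg Subtype.val hEq
  rcases lt_or_gt_of_ne hij with h | h
  · exact hinj i j h hEq'
  · exact hinj j i h hEq'.symm

theorem central_pow {p : ℕ} (hp : p.Prime)
    (hchar : ∀ r : R, p • r = 0) {n : ℕ} (b : R) (h : ∀ x : R, eng x b n = 0) (k e : ℕ)
    (hk : k + 1 = p ^ e) (hn : n ≤ k + 1) (z : R) : J7_pw b k * z = z * J7_pw b k := by
  have hge : ∀ x : R, ∀ m, n ≤ m → eng x b m = 0 := by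
    intro x m hm
    induction m, hm using Nat.le_induction with
    | base => exact h x
    | succ m _ ih =>
      simp only [eng]
      rw [ih, zero_mul, mul_zero, sub_zero]
  have hcomm : Commute (J7_Rm b) (J7_Lm b) := by
    ext w
    show (b * w) * b = b * (w * b)
    rw [mul_assoc]
  rcases subsingleton_or_nontrivial (AddMonoid.End R) with hs | hs
  · have h1 : (1 : AddMonoid.End R) = 0 := Subsingleton.elim _ _
    have h2 : ∀ w : R, w = 0 := fun w => by
      have := congrArg (fun f : AddMonoid.End R => f w) h1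
      exact this
    rw [h2 (J7_pw b k), zero_mul, mul_zero]
  · have : Fact p.Prime := ⟨hp⟩
    have hp0 : (p : AddMonoid.End R) = 0 := by
      ext w
      rw [AddMonoid.End.natCast_apply]
      exact hchar w
    have : CharP (AddMonoid.End R) p := by
      have := CharP.ringChar_of_prime_eq_zero hp hp0
      rw [← this]
      exact ringChar.charP _
    have h1 := J7_eng b z (k + 1)
    rw [hge z _ hn, hk, sub_pow_char_pow_of_commute _ _ hcomm, ← hk] at h1
    have h2 : ((J7_Rm b ^ (k + 1)) -
      (J7_Lm b ^ (k + 1))) z =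
      (J7_Rm b ^ (k + 1)) z -
      (J7_Lm b ^ (k + 1)) z := rfl
    rw [h2, J7_L, J7_R] at h1
    exact (sub_eq_zero.1 h1.symm).symm

/-- in a domain, `y^(i+1) = y^(j+1)`, `i < j`, `y ≠ 0` gives an identity element `y^(j-i)` -/
lemma identity_of_periodic (hdom : ∀ a b : R, a * b = 0 → a = 0 ∨ b = 0) {y : R} (hy : y ≠ 0)
    {i j : ℕ} (hij : i < j) (h : J7_pw y i = J7_pw y j) :
    ∀ r : R, J7_pw y (j - i - 1) * r = r ∧ r * J7_pw y (j - i - 1) = r := by
  intro r
  have hne : J7_pw y i ≠ 0 := J7_pw_ne hdom hy i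
  have e1 : J7_pw y i * J7_pw y (j - i - 1) = J7_pw y i := by
    rw [pw_mul_pw, h]
    congr 1
    omega
  have e2 : J7_pw y (j - i - 1) * J7_pw y i = J7_pw y i := by
    rw [pw_mul_pw, h]
    congr 1
    omega
  constructor
  · have h1 : J7_pw y i * (J7_pw y (j - i - 1) * r - r) = 0 := by
      rw [mul_sub, ← mul_assoc, e1, sub_self]
    rcases hdom _ _ h1 with h2 | h2
    · exact absurd h2 hne
    · exact sub_eq_zero.1 h2
  · have h1 : (r * J7_pw y (j - i - 1) - r) * J7_pw y i = 0 := by
      rw [sub_mul, mul_assoc, e2, sub_self]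
    rcases hdom _ _ h1 with h2 | h2
    · exact sub_eq_zero.1 h2
    · exact absurd h2 hne

/-- Jacobson's theorem, nonunital domain of characteristic `p` -/
lemma periodic_comm (hdom : ∀ a b : R, a * b = 0 → a = 0 ∨ b = 0) (p : ℕ) (hp : p.Prime)
    (hchar : ∀ r : R, p • r = 0)
    (hper : ∀ y : R, y ≠ 0 → ∃ i j : ℕ, i < j ∧ J7_pw y i = J7_pw y j) (x y : R) : x * y = y * x := by
  by_cases hx : x = 0
  · rw [hx, zero_mul, mul_zero]
  obtain ⟨i, j, hij, hxx⟩ := hper x hx
  have he := identity_of_periodic hdom hx hij hxx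
  let e : R := J7_pw x (j - i - 1)
  have hen : e ≠ 0 := J7_pw_ne hdom hx _
  let ρ : Ring R :=
    { (inferInstance : NonUnitalRing R) with
      one := e
      one_mul := fun r => (he r).1
      mul_one := fun r => (he r).2 }
  have hone : (1 : R) = e := rfl
  have : Nontrivial R := ⟨⟨1, 0, hen⟩⟩
  have hnz : NoZeroDivisors R := ⟨fun {a b} h => hdom a b h⟩
  have : IsDomain R := NoZeroDivisors.to_isDomain R
  have : Fact p.Prime := ⟨hp⟩
  have hp0 : (p : R) = 0 := by
    have h1 := hchar (1 : R)
    rwa [nsmul_eq_mul, mul_one] at h1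
  have : CharP R p := by
    have h1 := CharP.ringChar_of_prime_eq_zero hp hp0
    rw [← h1]
    exact ringChar.charP _
  apply periodic_domain_comm p
  intro z hz
  obtain ⟨i, j, hij, hzz⟩ := hper z hz
  have hz1 := identity_of_periodic hdom hz hij hzz
  have hpow : ∀ k, J7_pw z k = z ^ (k + 1) := by
    intro k
    induction k with
    | zero => simp [J7_pw]
    | succ k ih =>
      rw [pow_succ', ← ih]
      rfl
  refine ⟨j - i - 1 + 1, by omega, ?_⟩
  rw [← hpow]
  have := (hz1 1).1
  rwa [mul_one] at this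

end

theorem domain_comm_of_E {g : FreeAlgebra ℤ (Fin 2)} (hg : g ∈ S2) {n : ℕ} (hn : 1 ≤ n) {R : Type}
    [NonUnitalRing R] (hdom : ∀ a b : R, a * b = 0 → a = 0 ∨ b = 0)
    (hE : ∀ x y : R, ev x y g = ((eng x y n : R) : Unitization ℤ R)) (x y : R) : x * y = y * x := by
  obtain ⟨m, hm1, hm⟩ := eng_zero_of_subsetSums g hg
  have hsub := fun (y : R) => hm R hdom n y (fun x => hE x y)
  rcases char_or_tf hdom with htf | ⟨p, hp, hchar⟩
  · refine engel_domain_comm_torsionfree hdom htf n (fun x y => ?_) x y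
    by_cases hy : y = 0
    · obtain ⟨k, rfl⟩ : ∃ k, n = k + 1 := ⟨n - 1, by omega⟩
      rw [hy]
      simp [eng]
    · refine hsub y (fun _ => y) (fun _ => rfl) (fun s hs h0 => ?_) x
      rw [Finset.sum_const] at h0
      exact hy (htf _ _ (Finset.card_ne_zero.2 hs) h0)
  · by_contra hxy
    have hcent : ∀ c : Fin m → R, (∀ i z, c i * z = z * c i) →
        (∀ s : Finset (Fin m), s.Nonempty → ∑ i ∈ s, c i ≠ 0) → False := by
      intro c hc hs
      exact hxy (engel_domain_comm_charp hdom p hp hchar n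
        (fun x y => hsub y c (fun i => hc i y) hs x) x y)
    refine hxy (periodic_comm hdom p hp hchar (fun y hy => ?_) x y)
    by_contra hcon
    push Not at hcon
    have hss := subsetSum_ne_zero p hp hchar y hcon
    have h1 : ∀ x, eng x y n = 0 := by
      refine hsub y (fun i => J7_pw y i) (fun i => J7_pw_comm rfl _) (fun s hs h0 => ?_)
      apply hss (s.map Fin.valEmbedding) (by simpa using hs)
      rw [Finset.sum_map]
      exact h0
    have hlt : n < p ^ n := Nat.lt_pow_self hp.one_lt
    obtain ⟨k, hk⟩ : ∃ k, k + 1 = p ^ n := ⟨p ^ n - 1, by omega⟩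
    have hz := central_pow hp hchar y h1 k n hk (by omega)
    have hcz : ∀ i, ∀ w, J7_pw y (i * (k + 1) + k) * w = w * J7_pw y (i * (k + 1) + k) := by
      intro i
      induction i with
      | zero => intro w; simpa using hz w
      | succ i ih =>
        intro w
        have h2 : (i + 1) * (k + 1) + k = k + (i * (k + 1) + k) + 1 := by ring
        rw [h2, ← pw_mul_pw, mul_assoc, ih, ← mul_assoc, hz, mul_assoc]
    refine hcent (fun i => J7_pw y (i * (k + 1) + k)) (fun i w => hcz i w) (fun s hs h0 => ?_)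
    let φ : Fin m ↪ ℕ := ⟨fun i => i * (k + 1) + k, fun i j hij => by
      have h2 : (i : ℕ) * (k + 1) = j * (k + 1) := Nat.add_right_cancel hij
      exact Fin.ext (Nat.eq_of_mul_eq_mul_right (Nat.succ_pos k) h2)⟩
    apply hss (s.map φ) (by simpa using hs)
    rw [Finset.sum_map]
    exact h0

end Pool.Agent.Helper446_ENG
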