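import Pool.Agent.Helper446_ENG.Words

/-! Polynomial maps of bounded degree and subset sums (proof by helper301). -/

namespace Pool.Agent.Helper446_ENG

section PDsec
variable {R : Type} [NonUnitalRing R] {S : Type} [Ring S]

/-- degree less than `n` -/
def PD446 : ℕ → (R → S) → Prop
  | 0, F => ∀ b, F b = 0
  | n + 1, F => ∀ c, PD446 n (fun b => F (b + c) - F b)

theorem PD446_zero (n : ℕ) : PD446 n (fun _ : R => (0 : S)) := by
  induction n with
  | zero => intro b; rfl
  | succ n ih =>
    intro c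
    simpa using ih

theorem PD446_add (n : ℕ) (F G : R → S) (hF : PD446 n F) (hG : PD446 n G) :
    PD446 n (fun b => F b + G b) := by
  induction n generalizing F G with
  | zero =>
    intro b
    show F b + G b = 0
    rw [hF b, hG b, add_zero]
  | succ n ih =>
    intro c
    have := ih _ _ (hF c) (hG c)
    have e : (fun b => F (b + c) + G (b + c) - (F b + G b)) =
        fun b => (F (b + c) - F b) + (G (b + c) - G b) := by
      funext b
      abel
    show PD446 n (fun b => F (b + c) + G (b + c) - (F b + G b))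
    rw [e]
    exact this

theorem PD446_zsmul (n : ℕ) (z : ℤ) (F : R → S) (hF : PD446 n F) :
    PD446 n (fun b => z • F b) := by
  induction n generalizing F with
  | zero =>
    intro b
    show z • F b = 0
    rw [hF b, smul_zero]
  | succ n ih =>
    intro c
    have := ih _ (hF c)
    show PD446 n (fun b => z • F (b + c) - z • F b)
    have e : (fun b => z • F (b + c) - z • F b) = fun b => z • (F (b + c) - F b) := by
      funext b
      rw [smul_sub]
    rw [e]
    exact this

theorem PD446_mul (n : ℕ) (u v : S) (F : R → S) (hF : PD446 n F) :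
    PD446 n (fun b => u * F b * v) := by
  induction n generalizing F with
  | zero =>
    intro b
    show u * F b * v = 0
    rw [hF b, mul_zero, zero_mul]
  | succ n ih =>
    intro c
    have := ih _ (hF c)
    show PD446 n (fun b => u * F (b + c) * v - u * F b * v)
    have e : (fun b => u * F (b + c) * v - u * F b * v) = fun b => u * (F (b + c) - F b) * v := by
      funext b
      rw [mul_sub, sub_mul]
    rw [e]
    exact this

theorem PD446_succ (n : ℕ) (F : R → S) (hF : PD446 n F) : PD446 (n + 1) F := by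
  induction n generalizing F with
  | zero =>
    intro c b
    show F (b + c) - F b = 0
    rw [hF, hF, sub_zero]
  | succ n ih =>
    intro c
    exact ih _ (hF c)

theorem PD446_mono (n m : ℕ) (h : n ≤ m) (F : R → S) (hF : PD446 n F) :
    PD446 m F := by
  induction h with
  | refl => exact hF
  | step _ ih => exact PD446_succ _ _ ih

theorem PD446_const (s : S) : PD446 1 (fun _ : R => s) := by
  intro c b
  show s - s = 0
  rw [sub_self]

theorem PD446_imul (ι : R → S) (ha : ∀ a b, ι (a + b) = ι a + ι b) (n : ℕ) (F : R → S)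
    (hF : PD446 n F) : PD446 (n + 1) (fun b => ι b * F b) := by
  induction n generalizing F with
  | zero =>
    have e : (fun b : R => ι b * F b) = fun _ => 0 := by
      funext b
      rw [hF b, mul_zero]
    rw [e]
    exact PD446_zero _
  | succ n ih =>
    intro c
    show PD446 (n + 1) (fun b => ι (b + c) * F (b + c) - ι b * F b)
    have h1 := ih _ (hF c)
    have h2 := PD446_succ n _ (PD446_mul n (ι c) 1 _ (hF c))
    have h3 := PD446_mul (n + 1) (ι c) 1 _ hF
    have h4 := PD446_add _ _ _ (PD446_add _ _ _ h1 h2) h3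
    have e : (fun b => ι (b + c) * F (b + c) - ι b * F b) =
        fun b => (ι b * (F (b + c) - F b) + ι c * (F (b + c) - F b) * 1) + ι c * F b * 1 := by
      funext b
      rw [ha]
      noncomm_ring
    rw [e]
    exact h4

theorem PD446_vanish (m : ℕ) (F : R → S) (hF : PD446 m F) (c : Fin m → R) (b₀ : R)
    (h : ∀ s : Finset (Fin m), s.Nonempty → F (b₀ + ∑ i ∈ s, c i) = 0) : F b₀ = 0 := by
  induction m generalizing F with
  | zero => exact hF b₀
  | succ m ih =>
    have h1 := ih (fun b => F (b + c 0) - F b) (hF (c 0)) (fun i => c i.succ) (fun s hs => by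
      have e1 : F (b₀ + ∑ i ∈ s, c i.succ) = 0 := by
        have := h (s.map (Fin.succEmb m)) (by simpa using hs)
        rw [Finset.sum_map] at this
        exact this
      have e2 : F (b₀ + ∑ i ∈ s, c i.succ + c 0) = 0 := by
        have h0 : (0 : Fin (m + 1)) ∉ s.map (Fin.succEmb m) := by
          simp
        have := h (insert 0 (s.map (Fin.succEmb m))) (Finset.insert_nonempty _ _)
        rw [Finset.sum_insert h0, Finset.sum_map] at this
        rw [add_assoc, add_comm (∑ i ∈ s, c i.succ)]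
        exact this
      show F (b₀ + ∑ i ∈ s, c i.succ + c 0) - F (b₀ + ∑ i ∈ s, c i.succ) = 0
      rw [e1, e2, sub_zero])
    have h2 := h {0} (Finset.singleton_nonempty _)
    rw [Finset.sum_singleton] at h2
    have h3 : F (b₀ + c 0) - F b₀ = 0 := h1
    rw [h2, zero_sub, neg_eq_zero] at h3
    exact h3

/-- the product of the factors of a word after the first one -/
def PW446 (ι : R → S) (x y : R) : List ℕ → R → S
  | [], _ => 1
  | j :: L, b => ((ι y) ^ j) * (ι b * (ι x * PW446 ι x y L b))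

theorem PW446_PD (ι : R → S) (ha : ∀ a b, ι (a + b) = ι a + ι b) (x y : R) (L : List ℕ) :
    PD446 (L.length + 1) (PW446 ι x y L) := by
  induction L with
  | nil => exact PD446_const 1
  | cons j L ih =>
    have h1 := PD446_mul _ (ι x) 1 _ ih
    have h2 := PD446_imul ι ha _ _ h1
    have h3 := PD446_mul _ ((ι y) ^ j) 1 _ h2
    have e : PW446 ι x y (j :: L) = fun b => ((ι y) ^ j) *
        (ι b * (ι x * PW446 ι x y L b * 1)) * 1 := by
      funext b
      rw [mul_one, mul_one]
      rfl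
    rw [e]
    exact h3

theorem PW446_eq (ι : R → S) (hm : ∀ a b, ι (a * b) = ι a * ι b) (x y : R) (L : List ℕ) (b : R) :
    (L.map (fun i => (ι y) ^ i * ι (b * x))).prod = PW446 ι x y L b := by
  induction L with
  | nil => rfl
  | cons j L ih =>
    rw [List.map_cons, List.prod_cons, ih, hm]
    show _ = ((ι y) ^ j) * (ι b * (ι x * PW446 ι x y L b))
    simp only [mul_assoc]

theorem eng446 (b x y : R) (h : b * y = y * b) (n : ℕ) : eng (b * x) y n = b * eng x y n := by
  induction n with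
  | zero => rfl
  | succ n ih =>
    show eng (b * x) y n * y - y * eng (b * x) y n = b * (eng x y n * y - y * eng x y n)
    rw [ih, mul_sub, mul_assoc, ← mul_assoc y b, ← h, mul_assoc]

theorem alg446 [Algebra ℤ S] (φ : FreeAlgebra ℤ (Fin 2) →ₐ[ℤ] S) (L : List ℕ) (k : ℕ) :
    φ (wd (FreeAlgebra.ι ℤ 0) (FreeAlgebra.ι ℤ 1) L k) =
      wd (φ (FreeAlgebra.ι ℤ 0)) (φ (FreeAlgebra.ι ℤ 1)) L k := by
  unfold wd
  rw [map_mul, map_list_prod, map_pow, List.map_map]
  congr 3
  funext i
  simp

end PDsec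

/-- the property proved by induction on the element of the span -/
def QS446 (g : FreeAlgebra ℤ (Fin 2)) : Prop :=
  ∃ m : ℕ, 1 ≤ m ∧ ∀ (R : Type) [NonUnitalRing R] (S : Type) [Ring S] [Algebra ℤ S] (ι : R → S),
    (∀ a b, ι (a + b) = ι a + ι b) → (∀ a b, ι (a * b) = ι a * ι b) →
    (∀ (s : S) (r : R), ∃ r', s * ι r = ι r') → (∀ (s : S) (r : R), ∃ r', ι r * s = ι r') →
    ∀ φ : R → R → (FreeAlgebra ℤ (Fin 2) →ₐ[ℤ] S), (∀ x y, φ x y (FreeAlgebra.ι ℤ 0) = ι x) →
    (∀ x y, φ x y (FreeAlgebra.ι ℤ 1) = ι y) → ∀ x y : R,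
    ∃ G : R → S, PD446 m G ∧ G 0 = 0 ∧ (∀ b, ∃ r, G b = ι r) ∧
      ∀ b : R, b * y = y * b → φ (b * x) y g = ι b * G b

theorem QS446_word (L : List ℕ) (k : ℕ) (hL : 2 ≤ L.length) :
    QS446 (wd (FreeAlgebra.ι ℤ 0) (FreeAlgebra.ι ℤ 1) L k) := by
  obtain ⟨i, j, L', rfl⟩ : ∃ i j L', L = i :: j :: L' := by
    match L, hL with
    | i :: j :: L', _ => exact ⟨i, j, L', rfl⟩
  refine ⟨(j :: L').length + 1, by omega, fun R _ S _ _ ι ha hm hl hr φ h0 h1 x y => ?_⟩
  have hz : ι 0 = 0 := by
    have := ha 0 0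
    rw [add_zero] at this
    exact left_eq_add.1 this
  refine ⟨fun b => ((ι y) ^ i * ι x) * PW446 ι x y (j :: L') b * (ι y) ^ k, ?_, ?_, ?_, ?_⟩
  · exact PD446_mul _ _ _ _ (PW446_PD ι ha x y (j :: L'))
  · have h0 : PW446 ι x y (j :: L') 0 = 0 := by
      show ((ι y) ^ j) * (ι 0 * (ι x * PW446 ι x y L' 0)) = 0
      rw [hz, zero_mul, mul_zero]
    show ((ι y) ^ i * ι x) * PW446 ι x y (j :: L') 0 * (ι y) ^ k = 0
    rw [h0, mul_zero, zero_mul]
  · intro b
    obtain ⟨r1, e1⟩ := hl ((ι y) ^ i) x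
    obtain ⟨r2, e2⟩ := hr (PW446 ι x y (j :: L') b * (ι y) ^ k) r1
    refine ⟨r2, ?_⟩
    show ((ι y) ^ i * ι x) * PW446 ι x y (j :: L') b * (ι y) ^ k = ι r2
    rw [e1, mul_assoc, e2]
  · intro b hb
    rw [alg446, h0, h1]
    have hc : Commute ((ι y) ^ i) (ι b) := by
      apply Commute.pow_left
      show ι y * ι b = ι b * ι y
      rw [← hm, ← hm, hb]
    unfold wd
    rw [List.map_cons, List.prod_cons, PW446_eq ι hm, hm, ← mul_assoc ((ι y) ^ i), hc.eq]
    simp only [mul_assoc]

theorem QS446_of_mem (g : FreeAlgebra ℤ (Fin 2)) (hg : g ∈ S2) : QS446 g := by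
  unfold S2 at hg
  induction hg using Submodule.span_induction with
  | mem g h =>
    obtain ⟨L, k, hL, rfl⟩ := h
    exact QS446_word L k hL
  | zero =>
    refine ⟨1, le_refl _, fun R _ S _ _ ι ha hm hl hr φ h0 h1 x y => ⟨fun _ => 0, PD446_zero 1,
      rfl, fun _ => ⟨0, ?_⟩, fun b _ => ?_⟩⟩
    · have := ha 0 0
      rw [add_zero] at this
      exact (left_eq_add.1 this).symm
    · rw [map_zero, mul_zero]
  | add g1 g2 _ _ h1 h2 =>
    obtain ⟨m1, hm1, h1⟩ := h1
    obtain ⟨m2, hm2, h2⟩ := h2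
    refine ⟨max m1 m2, le_max_of_le_left hm1,
      fun R _ S _ _ ι ha hm hl hr φ p0 p1 x y => ?_⟩
    obtain ⟨G1, a1, b1, c1, d1⟩ := h1 R S ι ha hm hl hr φ p0 p1 x y
    obtain ⟨G2, a2, b2, c2, d2⟩ := h2 R S ι ha hm hl hr φ p0 p1 x y
    refine ⟨fun b => G1 b + G2 b, PD446_add _ _ _ (PD446_mono _ _ (le_max_left _ _) _ a1)
      (PD446_mono _ _ (le_max_right _ _) _ a2), ?_, ?_, ?_⟩
    · show G1 0 + G2 0 = 0
      rw [b1, b2, add_zero]
    · intro b
      obtain ⟨r1, e1⟩ := c1 b
      obtain ⟨r2, e2⟩ := c2 b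
      exact ⟨r1 + r2, by rw [ha, ← e1, ← e2]⟩
    · intro b hb
      rw [map_add, d1 b hb, d2 b hb, mul_add]
  | smul z g _ h =>
    obtain ⟨m, hm, h⟩ := h
    refine ⟨m, hm, fun R _ S _ _ ι ha hm' hl hr φ p0 p1 x y => ?_⟩
    obtain ⟨G, a, b, c, d⟩ := h R S ι ha hm' hl hr φ p0 p1 x y
    refine ⟨fun b => z • G b, PD446_zsmul _ _ _ a, ?_, ?_, ?_⟩
    · show z • G 0 = 0
      rw [b, smul_zero]
    · intro b'
      obtain ⟨r, e⟩ := c b'
      obtain ⟨r', e'⟩ := hl (z : S) r
      refine ⟨r', ?_⟩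
      show z • G b' = ι r'
      rw [e, zsmul_eq_mul, e']
    · intro b' hb
      have e1 : φ (b' * x) y (z • g) = z • φ (b' * x) y g := map_zsmul (φ (b' * x) y) z g
      rw [e1, d b' hb]
      show z • (ι b' * G b') = ι b' * (z • G b')
      rw [mul_smul_comm]

theorem eng_zero_of_subsetSums (g : FreeAlgebra ℤ (Fin 2)) (hg : g ∈ S2) :
    ∃ m : ℕ, 1 ≤ m ∧ ∀ (R : Type) [NonUnitalRing R], (∀ a b : R, a * b = 0 → a = 0 ∨ b = 0) →
      ∀ (n : ℕ) (y : R), (∀ x : R, ev x y g = ((eng x y n : R) : Unitization ℤ R)) →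
      ∀ c : Fin m → R, (∀ i, c i * y = y * c i) →
        (∀ s : Finset (Fin m), s.Nonempty → ∑ i ∈ s, c i ≠ 0) →
        ∀ x : R, eng x y n = 0 := by
  obtain ⟨m, hm, h⟩ := QS446_of_mem g hg
  refine ⟨m, hm, fun R _ hdom n y hev c hc hs x => ?_⟩
  have hadd : ∀ a b : R, ((a + b : R) : Unitization ℤ R) = a + b := fun a b =>
    Unitization.inr_add ℤ a b
  have hmul : ∀ a b : R, ((a * b : R) : Unitization ℤ R) = a * b := fun a b =>
    Unitization.inr_mul ℤ a b
  have hl : ∀ (s : Unitization ℤ R) (r : R), ∃ r' : R, s * (r : Unitization ℤ R) =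
      (r' : Unitization ℤ R) := by
    intro s r
    refine ⟨(s * (r : Unitization ℤ R)).snd, ?_⟩
    apply Unitization.ext
    · show (s * (r : Unitization ℤ R)).fst = 0
      rw [Unitization.fst_mul, Unitization.fst_inr, mul_zero]
    · rfl
  have hr : ∀ (s : Unitization ℤ R) (r : R), ∃ r' : R, (r : Unitization ℤ R) * s =
      (r' : Unitization ℤ R) := by
    intro s r
    refine ⟨((r : Unitization ℤ R) * s).snd, ?_⟩
    apply Unitization.ext
    · show ((r : Unitization ℤ R) * s).fst = 0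
      rw [Unitization.fst_mul, Unitization.fst_inr, zero_mul]
    · rfl
  obtain ⟨G, hPD, hG0, hrg, hG⟩ := h R (Unitization ℤ R) (fun r => (r : Unitization ℤ R)) hadd
    hmul hl hr (fun x y => ev x y) (fun x y => by simp [ev]) (fun x y => by simp [ev]) x y
  have hinj : Function.Injective (fun r : R => (r : Unitization ℤ R)) := Unitization.inr_injective
  have hval : ∀ b : R, b * y = y * b → b ≠ 0 → G b = ((eng x y n : R) : Unitization ℤ R) := by
    intro b hb hb0
    have h1 := hG b hb
    obtain ⟨r, hr'⟩ := hrg b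
    have h2 : ((b * eng x y n : R) : Unitization ℤ R) = ((b * r : R) : Unitization ℤ R) := by
      rw [← eng446 b x y hb, ← hev, hmul]
      rw [hr'] at h1
      exact h1
    have h3 : b * eng x y n = b * r := hinj h2
    have h4 : b * (eng x y n - r) = 0 := by
      rw [mul_sub, h3, sub_self]
    rcases hdom _ _ h4 with h5 | h5
    · exact absurd h5 hb0
    · rw [hr', sub_eq_zero.1 h5]
  have hF := PD446_add _ _ _ hPD (PD446_mono 1 m hm _
    (PD446_const (R := R) (-((eng x y n : R) : Unitization ℤ R))))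
  have hv := PD446_vanish m _ hF c 0 (fun s hsn => by
    have hcomm : (∑ i ∈ s, c i) * y = y * ∑ i ∈ s, c i := by
      rw [Finset.sum_mul, Finset.mul_sum]
      exact Finset.sum_congr rfl fun i _ => hc i
    have h7 := hval _ hcomm (hs s hsn)
    rw [zero_add, h7]
    exact add_neg_cancel _)
  have hv' : G 0 + -((eng x y n : R) : Unitization ℤ R) = 0 := hv
  rw [hG0] at hv'
  have h6 : ((eng x y n : R) : Unitization ℤ R) = ((0 : R) : Unitization ℤ R) := by
    have h8 : -((eng x y n : R) : Unitization ℤ R) = 0 := (zero_add _).symm.trans hv'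
    exact (neg_eq_zero.1 h8).trans (Unitization.inr_zero ℤ).symm
  exact hinj h6

end Pool.Agent.Helper446_ENG
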