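import Pool.Agent.Helper446_ENG.Defs

/-! Words in two letters and the representation by upper triangular matrices
(`mem_S2_of_Phi_eq_zero`: proof by helper492). -/

namespace Pool.Agent.Helper446_ENG

open MvPolynomial in
/-- `x ↦ e12`, `y ↦ diag(X_0, X_1)` -/
noncomputable def Phi : FreeAlgebra ℤ (Fin 2) →ₐ[ℤ] Matrix (Fin 2) (Fin 2) (MvPolynomial (Fin 2) ℤ) :=
  FreeAlgebra.lift ℤ ![!![0, 1; 0, 0], !![X 0, 0; 0, X 1]]

/-- the word `y^{i₁} x y^{i₂} x ⋯ y^{i_l} x y^k` -/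
def wd {S : Type*} [Ring S] (x y : S) (L : List ℕ) (k : ℕ) : S :=
  (L.map (fun i => y ^ i * x)).prod * y ^ k

/-- the span of the words with at least two `x` in the free ring on `x = ι 0`, `y = ι 1` -/
def S2 : Submodule ℤ (FreeAlgebra ℤ (Fin 2)) :=
  Submodule.span ℤ {w | ∃ (L : List ℕ) (k : ℕ), 2 ≤ L.length ∧
    w = wd (FreeAlgebra.ι ℤ 0) (FreeAlgebra.ι ℤ 1) L k}

/-- the `ℤ`-linear map `X_0^i X_1^j ↦ y^i x y^j` -/
noncomputable def ThetaJ3 : MvPolynomial (Fin 2) ℤ →ₗ[ℤ] FreeAlgebra ℤ (Fin 2) :=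
  (MvPolynomial.basisMonomials (Fin 2) ℤ).constr ℤ
    (fun s => FreeAlgebra.ι ℤ 1 ^ (s 0) * FreeAlgebra.ι ℤ 0 * FreeAlgebra.ι ℤ 1 ^ (s 1))

theorem ThetaJ3_monomial (s : Fin 2 →₀ ℕ) :
    ThetaJ3 (MvPolynomial.monomial s 1) =
      FreeAlgebra.ι ℤ 1 ^ (s 0) * FreeAlgebra.ι ℤ 0 * FreeAlgebra.ι ℤ 1 ^ (s 1) := by
  have h := (MvPolynomial.basisMonomials (Fin 2) ℤ).constr_basis ℤ
    (fun s : Fin 2 →₀ ℕ =>
      (FreeAlgebra.ι ℤ (1 : Fin 2) ^ (s 0) * FreeAlgebra.ι ℤ 0 * FreeAlgebra.ι ℤ 1 ^ (s 1) :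
        FreeAlgebra ℤ (Fin 2))) s
  rw [MvPolynomial.coe_basisMonomials] at h
  exact h

theorem ThetaJ3_X0 (h : MvPolynomial (Fin 2) ℤ) :
    ThetaJ3 (MvPolynomial.X 0 * h) = FreeAlgebra.ι ℤ 1 * ThetaJ3 h := by
  have key : ThetaJ3 ∘ₗ (LinearMap.mulLeft ℤ (MvPolynomial.X 0)) =
      (LinearMap.mulLeft ℤ (FreeAlgebra.ι ℤ (1 : Fin 2))) ∘ₗ ThetaJ3 := by
    apply (MvPolynomial.basisMonomials (Fin 2) ℤ).ext
    intro s
    rw [MvPolynomial.coe_basisMonomials]
    simp only [LinearMap.comp_apply, LinearMap.mulLeft_apply, ThetaJ3_monomial]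
    have h1 : (MvPolynomial.X 0 * MvPolynomial.monomial s 1 : MvPolynomial (Fin 2) ℤ) =
        MvPolynomial.monomial (Finsupp.single 0 1 + s) 1 := by
      rw [MvPolynomial.X, MvPolynomial.monomial_mul, one_mul]
    rw [h1, ThetaJ3_monomial]
    have e0 : (Finsupp.single (0 : Fin 2) 1 + s : Fin 2 →₀ ℕ) 0 = s 0 + 1 := by
      rw [Finsupp.add_apply, Finsupp.single_eq_same, add_comm]
    have e1 : (Finsupp.single (0 : Fin 2) 1 + s : Fin 2 →₀ ℕ) 1 = s 1 := by
      rw [Finsupp.add_apply, Finsupp.single_eq_of_ne (by decide), zero_add]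
    rw [e0, e1, pow_succ']
    simp only [mul_assoc]
  exact LinearMap.congr_fun key h

theorem ThetaJ3_X1 (F : Polynomial ℤ) :
    ThetaJ3 (Polynomial.aeval (MvPolynomial.X 1) F) =
      FreeAlgebra.ι ℤ 0 * Polynomial.aeval (FreeAlgebra.ι ℤ 1) F := by
  induction F using Polynomial.induction_on' with
  | add p q hp hq => rw [map_add, map_add, map_add, hp, hq, mul_add]
  | monomial n a =>
    rw [Polynomial.aeval_monomial, Polynomial.aeval_monomial]
    have h1 : (algebraMap ℤ (MvPolynomial (Fin 2) ℤ)) a * MvPolynomial.X 1 ^ n =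
        a • MvPolynomial.monomial (Finsupp.single 1 n) (1 : ℤ) := by
      rw [← Algebra.smul_def, MvPolynomial.X_pow_eq_monomial]
    rw [h1, map_smul, ThetaJ3_monomial, Finsupp.single_eq_of_ne (by decide),
      Finsupp.single_eq_same, pow_zero, one_mul, ← Algebra.smul_def, mul_smul_comm]
    rfl

theorem Phi_x_J3 : Phi (FreeAlgebra.ι ℤ 0) = !![0, 1; 0, 0] := by
  rw [Phi, FreeAlgebra.lift_ι_apply]
  rfl

theorem Phi_y_J3 : Phi (FreeAlgebra.ι ℤ 1) = !![MvPolynomial.X 0, 0; 0, MvPolynomial.X 1] := by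
  rw [Phi, FreeAlgebra.lift_ι_apply]
  rfl

theorem Phi_y_pow_J3 (n : ℕ) : Phi (FreeAlgebra.ι ℤ 1 ^ n) =
    !![MvPolynomial.X 0 ^ n, 0; 0, MvPolynomial.X 1 ^ n] := by
  induction n with
  | zero =>
    rw [pow_zero, map_one, pow_zero, pow_zero, Matrix.one_fin_two]
  | succ n ih =>
    rw [pow_succ, map_mul, ih, Phi_y_J3, Matrix.mul_fin_two]
    simp [pow_succ]

theorem Phi_aeval_J3 (F : Polynomial ℤ) : Phi (Polynomial.aeval (FreeAlgebra.ι ℤ 1) F) =
    !![Polynomial.aeval (MvPolynomial.X 0) F, 0; 0, Polynomial.aeval (MvPolynomial.X 1) F] := by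
  induction F using Polynomial.induction_on' with
  | add p q hp hq =>
    rw [map_add, map_add, hp, hq, map_add, map_add]
    ext i j
    fin_cases i <;> fin_cases j <;> simp
  | monomial n a =>
    rw [Polynomial.aeval_monomial, Polynomial.aeval_monomial, Polynomial.aeval_monomial,
      ← Algebra.smul_def, ← Algebra.smul_def, ← Algebra.smul_def, map_smul, Phi_y_pow_J3]
    ext i j
    fin_cases i <;> fin_cases j <;> simp

theorem Phi_Theta_J3 (h : MvPolynomial (Fin 2) ℤ) : Phi (ThetaJ3 h) = !![0, h; 0, 0] := by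
  induction h using MvPolynomial.induction_on' with
  | add p q hp hq =>
    rw [map_add, map_add, hp, hq]
    ext i j
    fin_cases i <;> fin_cases j <;> simp
  | monomial s a =>
    have h1 : (MvPolynomial.monomial s a : MvPolynomial (Fin 2) ℤ) =
        a • MvPolynomial.monomial s 1 := by
      rw [MvPolynomial.smul_monomial, smul_eq_mul, mul_one]
    have h2 : (MvPolynomial.monomial s (1 : ℤ) : MvPolynomial (Fin 2) ℤ) =
        MvPolynomial.X 0 ^ (s 0) * MvPolynomial.X 1 ^ (s 1) := by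
      rw [MvPolynomial.monomial_eq, MvPolynomial.C_1, one_mul, Finsupp.prod_fintype _ _ (by simp)]
      simp
    rw [h1, map_smul, ThetaJ3_monomial, map_smul, map_mul, map_mul, Phi_y_pow_J3, Phi_y_pow_J3,
      Phi_x_J3, h2, Matrix.mul_fin_two, Matrix.mul_fin_two]
    ext i j
    fin_cases i <;> fin_cases j <;> simp

theorem y_mul_S2_J3 {g : FreeAlgebra ℤ (Fin 2)} (hg : g ∈ S2) : FreeAlgebra.ι ℤ 1 * g ∈ S2 := by
  induction hg using Submodule.span_induction with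
  | mem w hw =>
    obtain ⟨L, k, hL, rfl⟩ := hw
    match L, hL with
    | i :: L', hL =>
      refine Submodule.subset_span ⟨(i + 1) :: L', k, by simpa using hL, ?_⟩
      simp only [wd, List.map_cons, List.prod_cons, pow_succ']
      simp only [mul_assoc]
  | zero => rw [mul_zero]; exact S2.zero_mem
  | add u v _ _ hu hv => rw [mul_add]; exact S2.add_mem hu hv
  | smul a u _ hu => rw [mul_smul_comm]; exact S2.smul_mem a hu

theorem x_mul_S2_J3 {g : FreeAlgebra ℤ (Fin 2)} (hg : g ∈ S2) : FreeAlgebra.ι ℤ 0 * g ∈ S2 := by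
  induction hg using Submodule.span_induction with
  | mem w hw =>
    obtain ⟨L, k, hL, rfl⟩ := hw
    refine Submodule.subset_span ⟨0 :: L, k, by simp; omega, ?_⟩
    simp only [wd, List.map_cons, List.prod_cons, pow_zero, one_mul]
    simp only [mul_assoc]
  | zero => rw [mul_zero]; exact S2.zero_mem
  | add u v _ _ hu hv => rw [mul_add]; exact S2.add_mem hu hv
  | smul a u _ hu => rw [mul_smul_comm]; exact S2.smul_mem a hu

theorem x_mul_Theta_J3 (h : MvPolynomial (Fin 2) ℤ) : FreeAlgebra.ι ℤ 0 * ThetaJ3 h ∈ S2 := by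
  induction h using MvPolynomial.induction_on' with
  | add p q hp hq => rw [map_add, mul_add]; exact S2.add_mem hp hq
  | monomial s a =>
    have h1 : (MvPolynomial.monomial s a : MvPolynomial (Fin 2) ℤ) =
        a • MvPolynomial.monomial s 1 := by
      rw [MvPolynomial.smul_monomial, smul_eq_mul, mul_one]
    rw [h1, map_smul, mul_smul_comm, ThetaJ3_monomial]
    refine S2.smul_mem a (Submodule.subset_span ⟨[0, s 0], s 1, by simp, ?_⟩)
    simp [wd, mul_assoc]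

theorem Phi_S2_J3 {g : FreeAlgebra ℤ (Fin 2)} (hg : g ∈ S2) : Phi g = 0 := by
  induction hg using Submodule.span_induction with
  | mem w hw =>
    obtain ⟨L, k, hL, rfl⟩ := hw
    match L, hL with
    | i :: j :: L', hL =>
      have h0 : Phi (FreeAlgebra.ι ℤ 1 ^ i * FreeAlgebra.ι ℤ 0 *
          (FreeAlgebra.ι ℤ 1 ^ j * FreeAlgebra.ι ℤ 0)) = 0 := by
        rw [map_mul, map_mul, map_mul, Phi_y_pow_J3, Phi_y_pow_J3, Phi_x_J3, Matrix.mul_fin_two,
          Matrix.mul_fin_two, Matrix.mul_fin_two]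
        ext a b
        fin_cases a <;> fin_cases b <;> simp
      simp only [wd, List.map_cons, List.prod_cons]
      rw [← mul_assoc (FreeAlgebra.ι ℤ 1 ^ i * FreeAlgebra.ι ℤ 0), map_mul, map_mul, h0, zero_mul,
        zero_mul]
  | zero => rw [map_zero]
  | add u v _ _ hu hv => rw [map_add, hu, hv, add_zero]
  | smul a u _ hu => rw [map_smul, hu, smul_zero]

/-- decomposable elements -/
def DecJ3 (w : FreeAlgebra ℤ (Fin 2)) : Prop :=
  ∃ (F : Polynomial ℤ) (h : MvPolynomial (Fin 2) ℤ), ∃ g ∈ S2,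
    w = Polynomial.aeval (FreeAlgebra.ι ℤ 1) F + ThetaJ3 h + g

theorem DecJ3.add {u v : FreeAlgebra ℤ (Fin 2)} (hu : DecJ3 u) (hv : DecJ3 v) :
    DecJ3 (u + v) := by
  obtain ⟨F, h, g, hg, rfl⟩ := hu
  obtain ⟨F', h', g', hg', rfl⟩ := hv
  refine ⟨F + F', h + h', g + g', S2.add_mem hg hg', ?_⟩
  rw [map_add, map_add]
  abel

theorem DecJ3.smul {u : FreeAlgebra ℤ (Fin 2)} (hu : DecJ3 u) (a : ℤ) : DecJ3 (a • u) := by
  obtain ⟨F, h, g, hg, rfl⟩ := hu
  refine ⟨a • F, a • h, a • g, S2.smul_mem a hg, ?_⟩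
  rw [map_smul, map_smul, smul_add, smul_add]

theorem DecJ3.x_mul {u : FreeAlgebra ℤ (Fin 2)} (hu : DecJ3 u) : DecJ3 (FreeAlgebra.ι ℤ 0 * u) := by
  obtain ⟨F, h, g, hg, rfl⟩ := hu
  refine ⟨0, Polynomial.aeval (MvPolynomial.X 1) F,
    FreeAlgebra.ι ℤ 0 * ThetaJ3 h + FreeAlgebra.ι ℤ 0 * g,
    S2.add_mem (x_mul_Theta_J3 h) (x_mul_S2_J3 hg), ?_⟩
  rw [map_zero, ThetaJ3_X1, mul_add, mul_add, zero_add, add_assoc]

theorem DecJ3.y_mul {u : FreeAlgebra ℤ (Fin 2)} (hu : DecJ3 u) : DecJ3 (FreeAlgebra.ι ℤ 1 * u) := by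
  obtain ⟨F, h, g, hg, rfl⟩ := hu
  refine ⟨Polynomial.X * F, MvPolynomial.X 0 * h, FreeAlgebra.ι ℤ 1 * g, y_mul_S2_J3 hg, ?_⟩
  rw [map_mul, Polynomial.aeval_X, ThetaJ3_X0, mul_add, mul_add]

theorem DecJ3.all (w : FreeAlgebra ℤ (Fin 2)) : DecJ3 w := by
  have key : ∀ v : FreeAlgebra ℤ (Fin 2), DecJ3 v → DecJ3 (w * v) := by
    induction w using FreeAlgebra.induction with
    | grade0 r =>
      intro v hv
      rw [← Algebra.smul_def]
      exact hv.smul r
    | grade1 i =>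
      intro v hv
      fin_cases i
      · exact hv.x_mul
      · exact hv.y_mul
    | mul a b ha hb =>
      intro v hv
      rw [mul_assoc]
      exact ha _ (hb _ hv)
    | add a b ha hb =>
      intro v hv
      rw [add_mul]
      exact (ha _ hv).add (hb _ hv)
  have h1 : DecJ3 (1 : FreeAlgebra ℤ (Fin 2)) := by
    refine ⟨1, 0, 0, S2.zero_mem, ?_⟩
    rw [map_one, map_zero, add_zero, add_zero]
  have h2 := key 1 h1
  rwa [mul_one] at h2

theorem mem_S2_of_Phi_eq_zero (w : FreeAlgebra ℤ (Fin 2)) (hw : Phi w = 0) : w ∈ S2 := by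
  obtain ⟨F, h, g, hg, rfl⟩ := DecJ3.all w
  rw [map_add, map_add, Phi_aeval_J3, Phi_Theta_J3, Phi_S2_J3 hg, add_zero] at hw
  have h00 : Polynomial.aeval (MvPolynomial.X 0 : MvPolynomial (Fin 2) ℤ) F = 0 := by
    have := congrFun (congrFun hw 0) 0
    simpa using this
  have h01 : h = 0 := by
    have := congrFun (congrFun hw 0) 1
    simpa using this
  have hF : F = 0 :=
    transcendental_iff.1 (MvPolynomial.transcendental_X ℤ (0 : Fin 2)) F h00
  rw [hF, h01, map_zero, map_zero, zero_add, zero_add]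
  exact hg

/-- evaluation at a pair of elements of a nonunital ring -/
noncomputable def ev {R : Type*} [NonUnitalRing R] (x y : R) :
    FreeAlgebra ℤ (Fin 2) →ₐ[ℤ] Unitization ℤ R :=
  FreeAlgebra.lift ℤ ![(x : Unitization ℤ R), (y : Unitization ℤ R)]

end Pool.Agent.Helper446_ENG
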